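import Mathlib

/-! Integral closure of an ideal, depth, and the monomial ideal of the counterexample. -/

namespace Pool.Agent.Lib.MP_30655b_al

open Polynomial RingTheory.Sequence

variable {R : Type*} [CommRing R]

/-- `f` satisfies an equation `f ^ k + a₁ f ^ (k - 1) + ⋯ + a_k = 0` with `a_i ∈ J ^ i`. -/
def IsIntOver (J : Ideal R) (f : R) : Prop :=
  ∃ k : ℕ, 1 ≤ k ∧ ∃ a : ℕ → R, (∀ i, a i ∈ J ^ i) ∧
    f ^ k + ∑ i ∈ Finset.Icc 1 k, a i * f ^ (k - i) = 0

theorem sum_Icc_rev (k : ℕ) (g : ℕ → R) :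
    ∑ i ∈ Finset.Icc 1 k, g i = ∑ i ∈ Finset.range k, g (k - i) := by
  refine Finset.sum_nbij' (fun i => k - i) (fun i => k - i) ?_ ?_ ?_ ?_ ?_ <;>
    simp only [Finset.mem_Icc, Finset.mem_range] <;> intro i hi
  · omega
  · omega
  · omega
  · omega
  · rw [show k - (k - i) = i by omega]

theorem isIntOver_iff_range {J : Ideal R} {f : R} : IsIntOver J f ↔
    ∃ k : ℕ, 1 ≤ k ∧ ∃ a : ℕ → R, (∀ i, a i ∈ J ^ i) ∧
      f ^ k + ∑ i ∈ Finset.range k, a (k - i) * f ^ i = 0 := by
  refine exists_congr fun k => and_congr_right fun _ => exists_congr fun a =>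
    and_congr_right fun _ => ?_
  rw [sum_Icc_rev, Finset.sum_congr rfl fun i hi => by
    rw [show k - (k - i) = i by have := Finset.mem_range.1 hi; omega]]

theorem isIntOver_iff {J : Ideal R} {f : R} :
    IsIntOver J f ↔ IsIntegral (reesAlgebra J) (monomial 1 f) := by
  rw [isIntOver_iff_range]
  constructor
  · rintro ⟨k, -, a, ha, h⟩
    refine ⟨X ^ k + ∑ i : Fin k, C (⟨monomial (k - i) (a (k - i)),
      reesAlgebra.monomial_mem.2 (ha _)⟩ : reesAlgebra J) * X ^ (i : ℕ),
      monic_X_pow_add (degree_sum_fin_lt _), ?_⟩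
    have := congrArg (monomial k) h
    rw [map_add, map_sum, map_zero, Finset.sum_range] at this
    rw [eval₂_add, eval₂_X_pow, eval₂_finsetSum, monomial_pow, one_mul, ← this]
    congr 1
    refine Finset.sum_congr rfl fun i _ => ?_
    rw [eval₂_mul, eval₂_C, eval₂_X_pow, monomial_pow, one_mul]
    exact (monomial_mul_monomial _ _ _ _).trans (by rw [Nat.sub_add_cancel i.2.le])
  · rintro ⟨p, hp, h⟩
    have h' : eval₂ (algebraMap _ R[X]) (monomial 1 f) (p * X) = 0 := by
      rw [eval₂_mul, h, zero_mul]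
    have hq := hp.mul monic_X
    have hk : 1 ≤ (p * X).natDegree ∨ Subsingleton R := by
      rcases subsingleton_or_nontrivial R with hR | hR
      · exact Or.inr hR
      · exact Or.inl (by rw [natDegree_mul_X hp.ne_zero]; omega)
    generalize p * X = q at h' hq hk
    rcases hk with hk | hk
    · refine ⟨q.natDegree, hk, fun i => (q.coeff (q.natDegree - i)).1.coeff i,
        fun i => (mem_reesAlgebra_iff J _).1 (q.coeff _).2 i, ?_⟩
      rw [eval₂_eq_sum_range, Finset.sum_range_succ, hq.coeff_natDegree, map_one, one_mul,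
        add_comm] at h'
      have := congrArg (coeff · q.natDegree) h'
      simp only [monomial_pow, one_mul, coeff_add, coeff_monomial_same, finsetSum_coeff,
        coeff_zero] at this
      rw [← this]
      congr 1
      refine Finset.sum_congr rfl fun i hi => ?_
      have hi := (Finset.mem_range.1 hi).le
      beta_reduce
      rw [Nat.sub_sub_self hi, ← coeff_mul_monomial, Nat.sub_add_cancel hi]
      rfl
    · exact ⟨1, le_rfl, 0, fun i => zero_mem _, Subsingleton.elim _ _⟩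

/-- The integral closure of the ideal `J`. -/
def intClosure (J : Ideal R) : Ideal R where
  carrier := {f | IsIntOver J f}
  zero_mem' := isIntOver_iff.2 (by rw [map_zero]; exact isIntegral_zero)
  add_mem' := fun hf hg => isIntOver_iff.2 (by
    rw [map_add]
    exact (isIntOver_iff.1 hf).add (isIntOver_iff.1 hg))
  smul_mem' := fun c f hf => isIntOver_iff.2 (by
    rw [map_smul, ← algebraMap_smul (reesAlgebra J)]
    exact (isIntOver_iff.1 hf).smul _)

/-- `rs` is a maximal `M`-regular sequence in `𝔪`. -/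
def IsMaxReg (𝔪 : Ideal R) (M : Type*) [AddCommGroup M] [Module R M] (rs : List R) : Prop :=
  (∀ x ∈ rs, x ∈ 𝔪) ∧ IsRegular M rs ∧ ∀ x ∈ 𝔪, ¬ IsRegular M (rs ++ [x])

/-- There is a maximal `M`-regular sequence in `𝔪`, and all of them have length `d`. -/
def IsDepth (𝔪 : Ideal R) (M : Type*) [AddCommGroup M] [Module R M] (d : ℕ) : Prop :=
  (∃ rs, IsMaxReg 𝔪 M rs) ∧ ∀ rs, IsMaxReg 𝔪 M rs → rs.length = d

/-- The ideal generated by the variables. -/
noncomputable def varIdeal (K : Type*) [Field K] (r : ℕ) : Ideal (MvPolynomial (Fin r) K) :=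
  Ideal.span (Set.range MvPolynomial.X)

/-- The ideal generated by the monomials whose exponents satisfy seven linear inequalities. -/
noncomputable def exIdeal (K : Type*) [Field K] : Ideal (MvPolynomial (Fin 8) K) :=
  Ideal.span ((fun α : Fin 8 →₀ ℕ => MvPolynomial.monomial α (1 : K)) ''
    {α | 13 ≤ α 0 + α 1 + α 2 + α 3 + α 4 + α 5 + α 6 + α 7 ∧
      23 ≤ 4 * α 2 + 4 * α 3 + α 4 + 2 * α 5 + 2 * α 6 + 2 * α 7 ∧
      28 ≤ 4 * α 0 + 4 * α 1 + 3 * α 4 + 2 * α 5 + 2 * α 6 + 2 * α 7 ∧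
      9 ≤ 2 * α 1 + 2 * α 3 + α 4 + α 5 + α 7 ∧
      16 ≤ 2 * α 0 + 2 * α 2 + α 4 + α 5 + 2 * α 6 + α 7 ∧
      5 ≤ α 4 + α 5 ∧ 7 ≤ α 6 + α 7})

end Pool.Agent.Lib.MP_30655b_al
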