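import Pool.Agent.Lib.MP_30655b_al.Poly
import Pool.Agent.Lib.MP_30655b_al.GMono

set_option autoImplicit false
open MvPolynomial

namespace Pool.Agent.Lib.MP_30655b_al.G

variable {K : Type*} [Field K]

abbrev E8 := Fin 8 →₀ ℕ
abbrev R8 (K : Type*) [Field K] := MvPolynomial (Fin 8) K

def a0 : Fin 8 → ℕ := ![1, 1, 1, 1, 1, 1, 1, 1]
def a1 : Fin 8 → ℕ := ![0, 0, 4, 4, 1, 2, 2, 2]
def a2 : Fin 8 → ℕ := ![4, 4, 0, 0, 3, 2, 2, 2]
def a3 : Fin 8 → ℕ := ![0, 2, 0, 2, 1, 1, 0, 1]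
def a4 : Fin 8 → ℕ := ![2, 0, 2, 0, 1, 1, 2, 1]
def a5 : Fin 8 → ℕ := ![0, 0, 0, 0, 1, 1, 0, 0]
def a6 : Fin 8 → ℕ := ![0, 0, 0, 0, 0, 0, 1, 1]

theorem mem_W8 (a : Fin 8 → ℕ) (c : ℕ) (α : E8) :
    α ∈ W a c ↔ c ≤ α 0 * a 0 + α 1 * a 1 + α 2 * a 2 + α 3 * a 3 + α 4 * a 4 + α 5 * a 5
      + α 6 * a 6 + α 7 * a 7 := by
  simp only [W, Set.mem_ofPred_eq]
  rw [Finsupp.weight_eq_sum, Fin.sum_univ_eight]
  simp only [smul_eq_mul]

theorem mem_a0 (c : ℕ) (α : E8) :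
    α ∈ W a0 c ↔ c ≤ α 0 + α 1 + α 2 + α 3 + α 4 + α 5 + α 6 + α 7 := by
  rw [mem_W8]; simp [a0]
theorem mem_a1 (c : ℕ) (α : E8) :
    α ∈ W a1 c ↔ c ≤ 4 * α 2 + 4 * α 3 + α 4 + 2 * α 5 + 2 * α 6 + 2 * α 7 := by
  rw [mem_W8]; simp [a1]; omega
theorem mem_a2 (c : ℕ) (α : E8) :
    α ∈ W a2 c ↔ c ≤ 4 * α 0 + 4 * α 1 + 3 * α 4 + 2 * α 5 + 2 * α 6 + 2 * α 7 := by
  rw [mem_W8]; simp [a2]; omega
theorem mem_a3 (c : ℕ) (α : E8) :
    α ∈ W a3 c ↔ c ≤ 2 * α 1 + 2 * α 3 + α 4 + α 5 + α 7 := by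
  rw [mem_W8]; simp [a3]; omega
theorem mem_a4 (c : ℕ) (α : E8) :
    α ∈ W a4 c ↔ c ≤ 2 * α 0 + 2 * α 2 + α 4 + α 5 + 2 * α 6 + α 7 := by
  rw [mem_W8]; simp [a4]; omega
theorem mem_a5 (c : ℕ) (α : E8) : α ∈ W a5 c ↔ c ≤ α 4 + α 5 := by
  rw [mem_W8]; simp [a5]
theorem mem_a6 (c : ℕ) (α : E8) : α ∈ W a6 c ↔ c ≤ α 6 + α 7 := by
  rw [mem_W8]; simp [a6]

/-- Lattice points of the `t`-th dilate of the polyhedron. -/
def U (t : ℕ) : Set E8 :=
  W a0 (t * 13) ∩ W a1 (t * 23) ∩ W a2 (t * 28) ∩ W a3 (t * 9) ∩ W a4 (t * 16) ∩ W a5 (t * 5)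
    ∩ W a6 (t * 7)

theorem UpC.inter {U V : Set E8} (hU : UpC U) (hV : UpC V) : UpC (U ∩ V) :=
  fun α β h => ⟨hU α β h.1, hV α β h.2⟩

theorem U_up (t : ℕ) : UpC (U t) :=
  ((((((W_up _ _).inter (W_up _ _)).inter (W_up _ _)).inter (W_up _ _)).inter (W_up _ _)).inter
    (W_up _ _)).inter (W_up _ _)

theorem mem_U (t : ℕ) (α : E8) : α ∈ U t ↔
    t * 13 ≤ α 0 + α 1 + α 2 + α 3 + α 4 + α 5 + α 6 + α 7 ∧
    t * 23 ≤ 4 * α 2 + 4 * α 3 + α 4 + 2 * α 5 + 2 * α 6 + 2 * α 7 ∧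
    t * 28 ≤ 4 * α 0 + 4 * α 1 + 3 * α 4 + 2 * α 5 + 2 * α 6 + 2 * α 7 ∧
    t * 9 ≤ 2 * α 1 + 2 * α 3 + α 4 + α 5 + α 7 ∧
    t * 16 ≤ 2 * α 0 + 2 * α 2 + α 4 + α 5 + 2 * α 6 + α 7 ∧
    t * 5 ≤ α 4 + α 5 ∧ t * 7 ≤ α 6 + α 7 := by
  simp only [U, Set.mem_inter_iff, mem_a0, mem_a1, mem_a2, mem_a3, mem_a4, mem_a5, mem_a6,
    and_assoc]

noncomputable def expo (y : P9) : E8 :=
  Finsupp.equivFunOnFinite.symm
    ![y.a.toNat, y.b.toNat, y.c.toNat, y.d.toNat, y.e.toNat, y.f.toNat, y.g.toNat, y.h.toNat]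

theorem cone_iff (y : P9) : Cone y ↔
    0 ≤ y.a ∧ 0 ≤ y.b ∧ 0 ≤ y.c ∧ 0 ≤ y.d ∧ 0 ≤ y.e ∧ 0 ≤ y.f ∧ 0 ≤ y.g ∧ 0 ≤ y.h ∧ 0 ≤ y.t ∧
    0 ≤ y.a + y.b + y.c + y.d + y.e + y.f + y.g + y.h - 13 * y.t ∧
    0 ≤ 4 * y.c + 4 * y.d + y.e + 2 * y.f + 2 * y.g + 2 * y.h - 23 * y.t ∧
    0 ≤ 4 * y.a + 4 * y.b + 3 * y.e + 2 * y.f + 2 * y.g + 2 * y.h - 28 * y.t ∧
    0 ≤ 2 * y.b + 2 * y.d + y.e + y.f + y.h - 9 * y.t ∧
    0 ≤ 2 * y.a + 2 * y.c + y.e + y.f + 2 * y.g + y.h - 16 * y.t ∧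
    0 ≤ y.e + y.f - 5 * y.t ∧ 0 ≤ y.g + y.h - 7 * y.t := by
  constructor
  · intro h
    exact ⟨h 0 (by norm_num), h 1 (by norm_num), h 2 (by norm_num), h 3 (by norm_num),
      h 4 (by norm_num), h 5 (by norm_num), h 6 (by norm_num), h 7 (by norm_num),
      h 8 (by norm_num), h 9 (by norm_num), h 10 (by norm_num), h 11 (by norm_num),
      h 12 (by norm_num), h 13 (by norm_num), h 14 (by norm_num), h 15 (by norm_num)⟩
  · rintro ⟨h0, h1, h2, h3, h4, h5, h6, h7, h8, h9, h10, h11, h12, h13, h14, h15⟩ l hl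
    interval_cases l <;> assumption

theorem gen_mem (y : P9) (hy : Gen y) :
    Cone y ∧ monomial (expo y) (1 : K) ∈ L K (U 1) ^ y.t.toNat := by
  induction hy with
  | zero =>
    refine ⟨(cone_iff _).2 (by simp [zero9]), by simp [zero9]⟩
  | add y v _ hv ht ih =>
    obtain ⟨hy, hm⟩ := ih
    have hc : Cone (comb 1 y 1 v) := fun l hl => by
      rw [s_comb]; have := hy l hl; have := hv l hl; linarith
    refine ⟨hc, ?_⟩
    rw [cone_iff] at hy hv
    obtain ⟨h0, h1, h2, h3, h4, h5, h6, h7, h8, -⟩ := hy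
    obtain ⟨k0, k1, k2, k3, k4, k5, k6, k7, k8, k9, k10, k11, k12, k13, k14, k15⟩ := hv
    have he : expo (comb 1 y 1 v) = expo y + expo v := by
      ext i
      fin_cases i <;> simp [expo, comb] <;> omega
    have ht' : (comb 1 y 1 v).t.toNat = y.t.toNat + v.t.toNat := by
      simp only [comb]; omega
    rw [he, ht', pow_add, ← one_mul (1 : K), ← monomial_mul]
    refine Ideal.mul_mem_mul hm ?_
    have : v.t = 0 ∨ v.t = 1 := by omega
    rcases this with h | h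
    · simp [h]
    · rw [h]
      simp only [Int.toNat_one, pow_one]
      apply monomial_mem_L
      rw [mem_U]
      simp [expo]
      omega

/-- The set of elements integral over an ideal, as in the statement. -/
def IntSet (J : Ideal (R8 K)) : Set (R8 K) :=
  {f : (R8 K) | ∃ n : ℕ, 1 ≤ n ∧ ∃ a : ℕ → (R8 K), (∀ i : ℕ, a i ∈ J ^ i) ∧
    f ^ n + ∑ i ∈ Finset.range n, a (n - i) * f ^ i = 0}

theorem monomial_integral (t : ℕ) (α : E8) (hα : α ∈ U t) :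
    monomial α (1 : K) ∈ IntSet (L K (U 1) ^ t) := by
  classical
  let y : P9 := ⟨α 0, α 1, α 2, α 3, α 4, α 5, α 6, α 7, t⟩
  have hy : Cone y := by
    rw [mem_U] at hα
    rw [cone_iff]
    simp only [y]
    omega
  obtain ⟨k, hk, hgen⟩ := good_of_cone y hy
  obtain ⟨n, rfl⟩ := Int.eq_ofNat_of_zero_le hk.le
  have hn : 1 ≤ n := by omega
  obtain ⟨-, hm⟩ := gen_mem (K := K) _ hgen
  have he : expo (comb n y 0 y) = n • α := by
    ext i
    fin_cases i <;> simp [expo, comb, y] <;> norm_cast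
  have ht : (comb n y 0 y).t.toNat = t * n := by
    simp only [comb, y, zero_mul, add_zero]
    rw [mul_comm t n]
    norm_cast
  have hp : (monomial (n • α) (1 : K) : R8 K) = monomial α 1 ^ n := by
    rw [monomial_pow, one_pow]
  rw [he, ht, pow_mul, hp] at hm
  refine ⟨n, hn, fun i => if i = n then -(monomial α 1) ^ n else 0, fun i => ?_, ?_⟩
  · by_cases hi : i = n
    · subst hi
      simpa using hm
    · simp [hi]
  · rw [Finset.sum_eq_single 0]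
    · simp
    · intro i hi hi0
      have := Finset.mem_range.1 hi
      have hne : ¬ n - i = n := by omega
      simp only [if_neg hne, zero_mul]
    · intro h
      exact absurd (Finset.mem_range.2 (by omega)) h

theorem span_intSet (t : ℕ) : Ideal.span (IntSet (L K (U 1) ^ t)) = L K (U t) := by
  apply le_antisymm
  · rw [Ideal.span_le]
    rintro f ⟨n, -, u, hu, heq⟩
    have key : ∀ (a : Fin 8 → ℕ) (c : ℕ), U 1 ⊆ W a c → f ∈ L K (W a (t * c)) := by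
      intro a c h
      exact integral_mem_W a (ideal_pow_le_W a (L_mono h) t) u hu heq
    change f ∈ L K (U t)
    rw [mem_L (U_up t)]
    intro α hα
    refine ⟨⟨⟨⟨⟨⟨?_, ?_⟩, ?_⟩, ?_⟩, ?_⟩, ?_⟩, ?_⟩
    · exact (mem_L (W_up _ _)).1 (key a0 13 fun β hβ => hβ.1.1.1.1.1.1) α hα
    · exact (mem_L (W_up _ _)).1 (key a1 23 fun β hβ => hβ.1.1.1.1.1.2) α hα
    · exact (mem_L (W_up _ _)).1 (key a2 28 fun β hβ => hβ.1.1.1.1.2) α hα
    · exact (mem_L (W_up _ _)).1 (key a3 9 fun β hβ => hβ.1.1.1.2) α hα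
    · exact (mem_L (W_up _ _)).1 (key a4 16 fun β hβ => hβ.1.1.2) α hα
    · exact (mem_L (W_up _ _)).1 (key a5 5 fun β hβ => hβ.1.2) α hα
    · exact (mem_L (W_up _ _)).1 (key a6 7 fun β hβ => hβ.2) α hα
  · rw [L, Ideal.span_le]
    rintro _ ⟨α, hα, rfl⟩
    exact Ideal.subset_span (monomial_integral t α hα)

/-! ### Level three: a regular sequence of length two -/

def aa : Fin 6 → Fin 8 → ℕ := ![a1, a2, a3, a4, a5, a6]
def cc : Fin 6 → ℕ := ![69, 84, 27, 48, 15, 21]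
def V (j : Fin 6) : Set E8 := W (aa j) (cc j)

theorem V_up (j : Fin 6) : UpC (V j) := W_up _ _

theorem mem_U3 (α : E8) : α ∈ U 3 ↔ ∀ j, α ∈ V j := by
  rw [mem_U]
  simp only [Fin.forall_fin_succ, V, aa, cc, Matrix.cons_val_zero, Matrix.cons_val_succ,
    mem_a1, mem_a2, mem_a3, mem_a4, mem_a5, mem_a6]
  simp
  omega

theorem mem_L_U3 (f : R8 K) : f ∈ L K (U 3) ↔ ∀ j, f ∈ L K (V j) := by
  simp only [mem_L (U_up 3), mem_L (V_up _), mem_U3]
  exact ⟨fun h j α hα => h α hα j, fun h α hα j => h j α hα⟩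

noncomputable def f1 : R8 K := X 0 + X 3
noncomputable def f2 : R8 K := X 1 + X 2

theorem reg_f1 {A : Set E8} (hA : UpC A) (h : Indep A 0 ∨ Indep A 3) {w : R8 K}
    (hw : f1 * w ∈ L K A) : w ∈ L K A := by
  rcases h with h | h
  · exact mem_of_add_mul_mem hA (by decide) h hw
  · rw [f1, add_comm] at hw
    exact mem_of_add_mul_mem hA (by decide) h hw

theorem reg_f2 {A : Set E8} (hA : UpC A) (h : Indep A 1 ∨ Indep A 2) {w : R8 K}
    (hw : f2 * w ∈ L K A) : w ∈ L K A := by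
  rcases h with h | h
  · exact mem_of_add_mul_mem hA (by decide) h hw
  · rw [f2, add_comm] at hw
    exact mem_of_add_mul_mem hA (by decide) h hw

theorem reg_f12 {A : Set E8} (hA : UpC A) (h : Indep A 0 ∨ Indep A 3) (h' : Indep A 1 ∨ Indep A 2)
    {w c : R8 K} (hw : f2 * w - f1 * c ∈ L K A) : ∃ c', w - f1 * c' ∈ L K A := by
  have e1 : (f1 : R8 K) = X 3 + X 0 := add_comm _ _
  have e2 : (f2 : R8 K) = X 2 + X 1 := add_comm _ _
  rcases h with h | h <;> rcases h' with h' | h'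
  · exact second_regular hA (by decide) (by decide) (by decide) (by decide) h h' hw
  · rw [e2] at hw
    exact second_regular hA (by decide) (by decide) (by decide) (by decide) h h' hw
  · rw [e1] at hw ⊢
    exact second_regular hA (by decide) (by decide) (by decide) (by decide) h h' hw
  · rw [e2] at hw
    rw [e1] at hw ⊢
    exact second_regular hA (by decide) (by decide) (by decide) (by decide) h h' hw

theorem V_indep1 (j : Fin 6) : Indep (V j) 0 ∨ Indep (V j) 3 := by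
  have : aa j 0 = 0 ∨ aa j 3 = 0 := by revert j; decide
  exact this.imp (W_indep _ _) (W_indep _ _)

theorem V_indep2 (j : Fin 6) : Indep (V j) 1 ∨ Indep (V j) 2 := by
  have : aa j 1 = 0 ∨ aa j 2 = 0 := by revert j; decide
  exact this.imp (W_indep _ _) (W_indep _ _)

theorem adj_cases (j k : Fin 6) :
    (∃ p : Fin 8, p.val < 4 ∧ aa j p = 0 ∧ aa k p = 0) ∨ (j = 0 ∧ k = 1) ∨ (j = 1 ∧ k = 0) ∨
      (j = 2 ∧ k = 3) ∨ (j = 3 ∧ k = 2) := by
  revert j k; decide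

theorem level3_first (w : R8 K) (hw : f1 * w ∈ L K (U 3)) : w ∈ L K (U 3) := by
  rw [mem_L_U3] at hw ⊢
  exact fun j => reg_f1 (V_up j) (V_indep1 j) (hw j)

theorem level3_second (w c : R8 K) (hw : f2 * w - f1 * c ∈ L K (U 3)) :
    ∃ c', w - f1 * c' ∈ L K (U 3) := by
  rw [mem_L_U3] at hw
  choose u hu using fun j => reg_f12 (V_up j) (V_indep1 j) (V_indep2 j) (hw j)
  have h1 : ∀ j, f2 * u j - c ∈ L K (V j) := by
    intro j
    apply reg_f1 (V_up j) (V_indep1 j)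
    have : f1 * (f2 * u j - c) = (f2 * w - f1 * c) - f2 * (w - f1 * u j) := by ring
    rw [this]
    exact Ideal.sub_mem _ (hw j) (Ideal.mul_mem_left _ _ (hu j))
  have hadj : ∀ j k, (∃ p : Fin 8, p.val < 4 ∧ aa j p = 0 ∧ aa k p = 0) →
      ∀ β, β ∉ V j → β ∉ V k → coeff β (u j) = coeff β (u k) := by
    rintro j k ⟨p, hp, hj, hk⟩ β hβj hβk
    have hup : UpC (V j ∪ V k) := (V_up j).union (V_up k)
    have hind : Indep (V j ∪ V k) p := (W_indep _ _ hj).union (W_indep _ _ hk)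
    have e1 : f1 * (u j - u k) ∈ L K (V j ∪ V k) := by
      have : f1 * (u j - u k) = (w - f1 * u k) - (w - f1 * u j) := by ring
      rw [this]
      exact Ideal.sub_mem _ (L_mono Set.subset_union_right (hu k))
        (L_mono Set.subset_union_left (hu j))
    have e2 : f2 * (u j - u k) ∈ L K (V j ∪ V k) := by
      have : f2 * (u j - u k) = (f2 * u j - c) - (f2 * u k - c) := by ring
      rw [this]
      exact Ideal.sub_mem _ (L_mono Set.subset_union_left (h1 j))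
        (L_mono Set.subset_union_right (h1 k))
    have e3 : u j - u k ∈ L K (V j ∪ V k) := by
      have : p = 0 ∨ p = 1 ∨ p = 2 ∨ p = 3 := by
        clear hj hk hind
        revert p; decide
      rcases this with rfl | rfl | rfl | rfl
      · exact reg_f1 hup (Or.inl hind) e1
      · exact reg_f2 hup (Or.inl hind) e2
      · exact reg_f2 hup (Or.inr hind) e2
      · exact reg_f1 hup (Or.inr hind) e1
    exact coeff_eq_of_sub_mem hup e3 (by rintro (h | h) <;> contradiction)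
  have h01 : ∀ β, β ∉ V 0 → β ∉ V 1 → coeff β (u 0) = coeff β (u 1) := by
    intro β h0 h1
    have : β ∉ V 2 ∨ β ∉ V 3 := by
      simp only [V, aa, cc] at h0 h1 ⊢
      simp [mem_a1, mem_a2, mem_a3, mem_a4] at h0 h1 ⊢
      omega
    rcases this with h | h
    · rw [hadj 0 2 (by decide) β h0 h, hadj 2 1 (by decide) β h h1]
    · rw [hadj 0 3 (by decide) β h0 h, hadj 3 1 (by decide) β h h1]
  have h23 : ∀ β, β ∉ V 2 → β ∉ V 3 → coeff β (u 2) = coeff β (u 3) := by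
    intro β h2 h3
    have : β ∉ V 0 ∨ β ∉ V 1 := by
      simp only [V, aa, cc] at h2 h3 ⊢
      simp [mem_a1, mem_a2, mem_a3, mem_a4] at h2 h3 ⊢
      omega
    rcases this with h | h
    · rw [hadj 2 0 (by decide) β h2 h, hadj 0 3 (by decide) β h h3]
    · rw [hadj 2 1 (by decide) β h2 h, hadj 1 3 (by decide) β h h3]
  obtain ⟨v, hv⟩ := glue V V_up u (by
    intro j k β hj hk
    rcases adj_cases j k with h | ⟨rfl, rfl⟩ | ⟨rfl, rfl⟩ | ⟨rfl, rfl⟩ | ⟨rfl, rfl⟩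
    · exact hadj j k h β hj hk
    · exact h01 β hj hk
    · exact (h01 β hk hj).symm
    · exact h23 β hj hk
    · exact (h23 β hk hj).symm)
  refine ⟨v, (mem_L_U3 _).2 fun j => ?_⟩
  have : w - f1 * v = (w - f1 * u j) - f1 * (v - u j) := by ring
  rw [this]
  exact Ideal.sub_mem _ (hu j) (Ideal.mul_mem_left _ _ (hv j))

noncomputable abbrev mm : Ideal (R8 K) := Ideal.span (Set.range (fun i : Fin 8 => (X i : R8 K)))

theorem X_mem_mm (i : Fin 8) : (X i : R8 K) ∈ mm := Ideal.subset_span ⟨i, rfl⟩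

theorem f1_mem : (f1 : R8 K) ∈ mm := Ideal.add_mem _ (X_mem_mm 0) (X_mem_mm 3)
theorem f2_mem : (f2 : R8 K) ∈ mm := Ideal.add_mem _ (X_mem_mm 1) (X_mem_mm 2)

theorem level3_regular :
    RingTheory.Sequence.IsWeaklyRegular (R8 K ⧸ L K (U 3)) [(f1 : R8 K), f2] :=
  (weaklyRegular_pair_iff _ _ _).2 ⟨level3_first, level3_second⟩

theorem mm_le_ker : mm ≤ RingHom.ker (constantCoeff : R8 K →+* K) := by
  rw [Ideal.span_le]
  rintro _ ⟨i, rfl⟩
  simp

theorem L_le_ker {t : ℕ} (ht : 0 < t) : L K (U t) ≤ RingHom.ker (constantCoeff : R8 K →+* K) := by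
  intro f hf
  rw [RingHom.mem_ker, constantCoeff_eq]
  by_contra hne
  have := (mem_L (U_up t)).1 hf 0 hne
  rw [mem_U] at this
  simp at this
  omega

/-! ### Level two: no regular sequence of length two -/

noncomputable def al : E8 := Finsupp.equivFunOnFinite.symm ![0, 0, 0, 0, 5, 6, 7, 7]

def AA : Set E8 := W a1 46 ∩ W a3 18 ∩ W a4 32 ∩ W a5 10 ∩ W a6 14
def BB : Set E8 := W a2 56

theorem AA_up : UpC AA :=
  ((((W_up _ _).inter (W_up _ _)).inter (W_up _ _)).inter (W_up _ _)).inter (W_up _ _)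

theorem BB_up : UpC BB := W_up _ _

theorem mem_L_U2 (f : R8 K) : f ∈ L K (U 2) ↔ f ∈ L K AA ∧ f ∈ L K BB := by
  have : ∀ α, α ∈ U 2 ↔ α ∈ AA ∧ α ∈ BB := by
    intro α
    rw [mem_U]
    simp only [AA, BB, Set.mem_inter_iff, mem_a1, mem_a2, mem_a3, mem_a4, mem_a5, mem_a6]
    omega
  simp only [mem_L (U_up 2), mem_L AA_up, mem_L BB_up, this]
  exact ⟨fun h => ⟨fun α hα => (h α hα).1, fun α hα => (h α hα).2⟩,
    fun h α hα => ⟨h.1 α hα, h.2 α hα⟩⟩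

theorem level2_first (w : R8 K) (hw : f1 * w ∈ L K (U 2)) : w ∈ L K (U 2) := by
  have key : ∀ (a : Fin 8 → ℕ) (c : ℕ), a 0 = 0 ∨ a 3 = 0 → U 2 ⊆ W a c → w ∈ L K (W a c) :=
    fun a c hp h => reg_f1 (W_up _ _) (hp.imp (W_indep a c) (W_indep a c)) (L_mono h hw)
  rw [mem_L_U2, mem_L AA_up]
  refine ⟨fun α hα => ⟨⟨⟨⟨?_, ?_⟩, ?_⟩, ?_⟩, ?_⟩, key a2 56 (Or.inr rfl) fun β hβ => hβ.1.1.1.1.2⟩
  · exact (mem_L (W_up _ _)).1 (key a1 46 (Or.inl rfl) fun β hβ => hβ.1.1.1.1.1.2) α hα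
  · exact (mem_L (W_up _ _)).1 (key a3 18 (Or.inl rfl) fun β hβ => hβ.1.1.1.2) α hα
  · exact (mem_L (W_up _ _)).1 (key a4 32 (Or.inr rfl) fun β hβ => hβ.1.1.2) α hα
  · exact (mem_L (W_up _ _)).1 (key a5 10 (Or.inl rfl) fun β hβ => hβ.1.2) α hα
  · exact (mem_L (W_up _ _)).1 (key a6 14 (Or.inl rfl) fun β hβ => hβ.2) α hα

theorem X_mul_al (i : Fin 8) :
    ∃ b ∈ L K BB, (X i : R8 K) * monomial al 1 - b ∈ L K AA := by
  have hX : (X i : R8 K) * monomial al 1 = monomial (Finsupp.single i 1 + al) 1 := by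
    rw [X, monomial_mul, one_mul]
  have : Finsupp.single i 1 + al ∈ AA ∨ Finsupp.single i 1 + al ∈ BB := by
    simp only [AA, BB, Set.mem_inter_iff, mem_a1, mem_a2, mem_a3, mem_a4, mem_a5, mem_a6]
    fin_cases i <;> simp [al]
  rcases this with h | h
  · exact ⟨0, Ideal.zero_mem _, by rw [sub_zero, hX]; exact monomial_mem_L h⟩
  · exact ⟨_, monomial_mem_L h, by rw [hX, sub_self]; exact Ideal.zero_mem _⟩

theorem mm_mul_al (h : R8 K) (hh : h ∈ mm) :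
    ∃ b ∈ L K BB, h * monomial al 1 - b ∈ L K AA := by
  induction hh using Submodule.span_induction with
  | mem x hx =>
    obtain ⟨i, rfl⟩ := hx
    exact X_mul_al i
  | zero => exact ⟨0, Ideal.zero_mem _, by simp⟩
  | add x y _ _ hx hy =>
    obtain ⟨b, hb, hb'⟩ := hx
    obtain ⟨c, hc, hc'⟩ := hy
    refine ⟨b + c, Ideal.add_mem _ hb hc, ?_⟩
    have : (x + y) * monomial al 1 - (b + c) = (x * monomial al 1 - b) + (y * monomial al 1 - c) := by
      ring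
    rw [this]
    exact Ideal.add_mem _ hb' hc'
  | smul r x _ hx =>
    obtain ⟨b, hb, hb'⟩ := hx
    refine ⟨r * b, Ideal.mul_mem_left _ _ hb, ?_⟩
    have : (r • x) * monomial al 1 - r * b = r * (x * monomial al 1 - b) := by
      rw [smul_eq_mul]; ring
    rw [this]
    exact Ideal.mul_mem_left _ _ hb'

theorem socle_AA (z : R8 K) (hz : ∀ i, (X i : R8 K) * z ∈ L K AA) : z ∈ L K AA := by
  have key : ∀ (a : Fin 8 → ℕ) (c : ℕ) (p : Fin 8), a p = 0 → AA ⊆ W a c → z ∈ L K (W a c) :=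
    fun a c p hp h => mem_of_X_mul_mem (W_up _ _) (W_indep a c hp) (L_mono h (hz p))
  rw [mem_L AA_up]
  intro α hα
  refine ⟨⟨⟨⟨?_, ?_⟩, ?_⟩, ?_⟩, ?_⟩
  · exact (mem_L (W_up _ _)).1 (key a1 46 0 rfl fun β hβ => hβ.1.1.1.1) α hα
  · exact (mem_L (W_up _ _)).1 (key a3 18 0 rfl fun β hβ => hβ.1.1.1.2) α hα
  · exact (mem_L (W_up _ _)).1 (key a4 32 1 rfl fun β hβ => hβ.1.1.2) α hα
  · exact (mem_L (W_up _ _)).1 (key a5 10 0 rfl fun β hβ => hβ.1.2) α hα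
  · exact (mem_L (W_up _ _)).1 (key a6 14 0 rfl fun β hβ => hβ.2) α hα

theorem level2_not_regular (f g : R8 K) (hf : f ∈ mm) (hg : g ∈ mm) :
    ¬ RingTheory.Sequence.IsWeaklyRegular ((R8 K) ⧸ L K (U 2)) [f, g] := by
  rw [weaklyRegular_pair_iff]
  rintro ⟨h1, h2⟩
  obtain ⟨bf, hbf, hbf'⟩ := mm_mul_al f hf
  obtain ⟨bg, hbg, hbg'⟩ := mm_mul_al g hg
  set u : R8 K := monomial al 1 with hu
  obtain ⟨w, hw⟩ := h2 bf bg ((mem_L_U2 _).2 ⟨by
      have : g * bf - f * bg = f * (g * u - bg) - g * (f * u - bf) := by ring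
      rw [this]
      exact Ideal.sub_mem _ (Ideal.mul_mem_left _ _ hbg') (Ideal.mul_mem_left _ _ hbf'),
    Ideal.sub_mem _ (Ideal.mul_mem_left _ _ hbf) (Ideal.mul_mem_left _ _ hbg)⟩)
  rw [mem_L_U2] at hw
  have hA : f * (u - w) ∈ L K AA := by
    have : f * (u - w) = (f * u - bf) + (bf - f * w) := by ring
    rw [this]
    exact Ideal.add_mem _ hbf' hw.1
  have hB : f * w ∈ L K BB := by
    have : f * w = bf - (bf - f * w) := by ring
    rw [this]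
    exact Ideal.sub_mem _ hbf hw.2
  have hi : ∀ i : Fin 8, X i * (u - w) ∈ L K AA ∧ X i * w ∈ L K BB := by
    intro i
    obtain ⟨b, hb, hb'⟩ := X_mul_al (K := K) i
    have hy := (mem_L_U2 _).1 (h1 (b - X i * w) ((mem_L_U2 _).2 ⟨by
        have : f * (b - X i * w) = X i * (f * (u - w)) - f * (X i * u - b) := by ring
        rw [this]
        exact Ideal.sub_mem _ (Ideal.mul_mem_left _ _ hA) (Ideal.mul_mem_left _ _ hb'), by
        have : f * (b - X i * w) = f * b - X i * (f * w) := by ring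
        rw [this]
        exact Ideal.sub_mem _ (Ideal.mul_mem_left _ _ hb) (Ideal.mul_mem_left _ _ hB)⟩))
    constructor
    · have : X i * (u - w) = (X i * u - b) + (b - X i * w) := by ring
      rw [this]
      exact Ideal.add_mem _ hb' hy.1
    · have : X i * w = b - (b - X i * w) := by ring
      rw [this]
      exact Ideal.sub_mem _ hb hy.2
  have e1 := socle_AA _ fun i => (hi i).1
  have e2 : w ∈ L K BB := mem_of_X_mul_mem BB_up (W_indep a2 56 (p := 2) rfl) (hi 2).2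
  have e3 : u ∈ L K (AA ∪ BB) := by
    have : u = (u - w) + w := by ring
    rw [this]
    exact Ideal.add_mem _ (L_mono Set.subset_union_left e1) (L_mono Set.subset_union_right e2)
  have e4 := (mem_L (AA_up.union BB_up)).1 e3 al (by simp [hu])
  simp only [AA, BB, Set.mem_union, Set.mem_inter_iff, mem_a1, mem_a2] at e4
  simp [al] at e4

end Pool.Agent.Lib.MP_30655b_al.G
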