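import Pool.Agent.Lib.MP_30655b_al.BDefs

/-! All maximal regular sequences in an ideal have the same length. -/

namespace Pool.Agent.Lib.MP_30655b_al

open RingTheory.Sequence CategoryTheory Abelian Limits Pointwise

universe u

variable {R : Type u} [CommRing R] {I : Ideal R}

theorem lt_top_quot {M : Type u} [AddCommGroup M] [Module R M] {r : R} (hr : r ∈ I)
    (hI : I • (⊤ : Submodule R M) < ⊤) : I • (⊤ : Submodule R (QuotSMulTop r M)) < ⊤ := by
  refine lt_top_iff_ne_top.2 fun eq => ?_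
  absurd congrArg (Submodule.comap (Submodule.mkQ _)) eq
  simpa [Submodule.comap_smul_top_of_surjective I _ (Submodule.mkQ_surjective _),
    Submodule.smul_mono_left ((Ideal.span_singleton_le_iff_mem I).mpr hr),
    ← Submodule.ideal_span_singleton_smul] using hI.ne

theorem isRegular_of_weak {M : Type u} [AddCommGroup M] [Module R M]
    (hI : I • (⊤ : Submodule R M) < ⊤) {rs : List R} (hm : ∀ x ∈ rs, x ∈ I)
    (h : IsWeaklyRegular M rs) : IsRegular M rs :=
  ⟨h, ((Submodule.smul_mono_left (Ideal.span_le.2 hm)).trans_lt hI).ne'⟩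

variable [IsNoetherianRing R]

theorem extend_reg (rs : List R) : ∀ (M : Type u) [AddCommGroup M] [Module R M]
    [Module.Finite R M], I • (⊤ : Submodule R M) < ⊤ → (∀ x ∈ rs, x ∈ I) → IsRegular M rs →
    ∀ ss : List R, (∀ x ∈ ss, x ∈ I) → IsRegular M ss → rs.length < ss.length →
      ∃ x ∈ I, IsRegular M (rs ++ [x]) := by
  induction rs with
  | nil =>
    intro M _ _ _ hI _ _ ss hs h hl
    obtain _ | ⟨a, ss⟩ := ss
    · simp at hl
    · have ha := hs a List.mem_cons_self
      exact ⟨a, ha, isRegular_of_weak hI (by simpa using ha)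
        ((isWeaklyRegular_singleton_iff M a).2 ((isRegular_cons_iff M a ss).1 h).1)⟩
  | cons r rs ih =>
    intro M _ _ _ hI hm hr ss hs h hl
    obtain ⟨h1, h2⟩ := (isRegular_cons_iff M r rs).1 hr
    have hI' := lt_top_quot (hm r List.mem_cons_self) hI
    have supp : Module.support R (R ⧸ I) = PrimeSpectrum.zeroLocus I := by
      rw [Module.support_eq_zeroLocus, Ideal.annihilator_quotient]
    have hx := ModuleCat.subsingleton_ext_of_exists_isRegular I (ModuleCat.of R (R ⧸ I))
      supp.subset (ModuleCat.of R M) hI ss hs h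
    obtain ⟨ts, t1, t2, t3⟩ := ModuleCat.exists_isRegular_of_exists_subsingleton_ext I
      (rs.length + 1) (ModuleCat.of R (QuotSMulTop r M)) hI' (ModuleCat.of R (R ⧸ I)) supp
      fun i hi => by
        rw [List.length_cons] at hl
        have z1 := AddCommGrpCat.isZero_of_iff_subsingleton.mpr (hx i (by omega))
        have z2 := AddCommGrpCat.isZero_of_iff_subsingleton.mpr (hx (i + 1) (by omega))
        exact AddCommGrpCat.subsingleton_of_isZero <| ShortComplex.Exact.isZero_of_both_zeros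
          ((Ext.covariant_sequence_exact₃' (ModuleCat.of R (R ⧸ I))
            (IsSMulRegular.smulShortComplex_shortExact (M := ModuleCat.of R M) h1)) i (i + 1) rfl)
          (z1.eq_zero_of_src _) (z2.eq_zero_of_tgt _)
    obtain ⟨x, x1, x2⟩ := ih (QuotSMulTop r M) hI' (fun y hy => hm y (List.mem_cons_of_mem _ hy))
      h2 ts t2 t3 (by omega)
    exact ⟨x, x1, IsRegular.cons h1 x2⟩

variable {M : Type u} [AddCommGroup M] [Module R M]

theorem exists_isMaxReg (hI : I • (⊤ : Submodule R M) < ⊤) : ∃ rs, IsMaxReg I M rs := by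
  obtain ⟨_, ⟨rs, ⟨h1, h2⟩, rfl⟩, h3⟩ := WellFounded.has_min (wellFounded_gt (α := Ideal R))
    (Ideal.ofList '' {rs | (∀ x ∈ rs, x ∈ I) ∧ IsRegular M rs})
    ⟨_, [], ⟨by simp, isRegular_of_weak hI (by simp) (IsWeaklyRegular.nil R M)⟩, rfl⟩
  refine ⟨rs, h1, h2, fun x hx h => h3 _ ⟨rs ++ [x], ⟨by
    simpa [or_imp, forall_and, hx] using h1, h⟩, rfl⟩ (lt_of_le_of_ne (by simp) fun e => ?_)⟩
  have hx' : x ∈ Ideal.ofList rs := e ▸ Ideal.subset_span (by simp)
  have h4 := (isWeaklyRegular_singleton_iff _ x).1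
    ((isWeaklyRegular_append_iff M rs [x]).1 h.1).2
  refine h2.2 (eq_top_iff.2 fun m _ => ?_).symm
  rw [← Submodule.Quotient.mk_eq_zero]
  refine h4 ?_
  simp only [smul_zero]
  rw [← Submodule.Quotient.mk_smul, Submodule.Quotient.mk_eq_zero]
  exact Submodule.smul_mem_smul hx' trivial

variable [Module.Finite R M]

theorem IsMaxReg.le (hI : I • (⊤ : Submodule R M) < ⊤) {rs ss : List R} (h : IsMaxReg I M rs)
    (hs : ∀ x ∈ ss, x ∈ I) (hs' : IsRegular M ss) : ss.length ≤ rs.length := by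
  by_contra hl
  obtain ⟨x, x1, x2⟩ := extend_reg rs M hI h.1 h.2.1 ss hs hs' (not_le.1 hl)
  exact h.2.2 x x1 x2

theorem IsMaxReg.isDepth (hI : I • (⊤ : Submodule R M) < ⊤) {rs : List R} (h : IsMaxReg I M rs) :
    IsDepth I M rs.length :=
  ⟨⟨rs, h⟩, fun _ h' => le_antisymm (h.le hI h'.1 h'.2.1) (h'.le hI h.1 h.2.1)⟩

end Pool.Agent.Lib.MP_30655b_al
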