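import Mathlib

set_option autoImplicit false
open MvPolynomial

namespace Pool.Agent.Lib.MP_30655b_al

variable {σ : Type} {K : Type} [Field K]

/-- Up-closed sets of exponents. -/
def UpC (U : Set (σ →₀ ℕ)) : Prop := ∀ α β, α ∈ U → α + β ∈ U

/-- The monomial ideal of a set of exponents. -/
noncomputable def L (K : Type) [Field K] (U : Set (σ →₀ ℕ)) : Ideal (MvPolynomial σ K) :=
  Ideal.span ((fun s : σ →₀ ℕ => monomial s (1 : K)) '' U)

theorem mem_L {U : Set (σ →₀ ℕ)} (hU : UpC U) {f : MvPolynomial σ K} :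
    f ∈ L K U ↔ ∀ α, coeff α f ≠ 0 → α ∈ U := by
  rw [L, mem_ideal_span_monomial_image]
  constructor
  · intro h α hα
    obtain ⟨β, hβ, hle⟩ := h α (mem_support_iff.2 hα)
    obtain ⟨γ, rfl⟩ := le_iff_exists_add.1 hle
    exact hU _ _ hβ
  · intro h α hα
    exact ⟨α, h α (mem_support_iff.1 hα), le_rfl⟩

theorem L_mono {U V : Set (σ →₀ ℕ)} (h : U ⊆ V) : L K U ≤ L K V :=
  Ideal.span_mono (Set.image_mono h)

theorem monomial_mem_L {U : Set (σ →₀ ℕ)} {α : σ →₀ ℕ} (h : α ∈ U) :
    monomial α (1 : K) ∈ L K U := Ideal.subset_span ⟨α, h, rfl⟩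

theorem UpC.union {U V : Set (σ →₀ ℕ)} (hU : UpC U) (hV : UpC V) : UpC (U ∪ V) := by
  rintro α β (h | h)
  · exact Or.inl (hU _ _ h)
  · exact Or.inr (hV _ _ h)

/-- Exponents of weight at least `c`. -/
def W (a : σ → ℕ) (c : ℕ) : Set (σ →₀ ℕ) := {α | c ≤ Finsupp.weight a α}

theorem W_up (a : σ → ℕ) (c : ℕ) : UpC (W a c) := by
  intro α β h
  simp only [W, Set.mem_ofPred_eq, map_add] at h ⊢
  omega

theorem W_anti (a : σ → ℕ) {c d : ℕ} (h : c ≤ d) : L K (W a d) ≤ L K (W a c) :=
  L_mono fun _ hα => le_trans h hα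

theorem mul_mem_W (a : σ → ℕ) {c d : ℕ} {f g : MvPolynomial σ K} (hf : f ∈ L K (W a c))
    (hg : g ∈ L K (W a d)) : f * g ∈ L K (W a (c + d)) := by
  classical
  rw [mem_L (W_up _ _)] at hf hg ⊢
  intro α hα
  have := support_mul f g (mem_support_iff.2 hα)
  obtain ⟨β, hβ, γ, hγ, rfl⟩ := Finset.mem_add.1 this
  have h1 := hf β (mem_support_iff.1 hβ)
  have h2 := hg γ (mem_support_iff.1 hγ)
  simp only [W, Set.mem_ofPred_eq, map_add] at h1 h2 ⊢
  omega

theorem mem_W_zero (a : σ → ℕ) (f : MvPolynomial σ K) : f ∈ L K (W a 0) := by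
  rw [mem_L (W_up _ _)]
  intro α _
  simp [W]

theorem pow_mem_W (a : σ → ℕ) {c : ℕ} {f : MvPolynomial σ K} (hf : f ∈ L K (W a c)) (n : ℕ) :
    f ^ n ∈ L K (W a (n * c)) := by
  induction n with
  | zero => simpa using mem_W_zero a 1
  | succ n ih =>
    rw [pow_succ, Nat.succ_mul]
    exact mul_mem_W a ih hf

theorem ideal_pow_le_W (a : σ → ℕ) {c : ℕ} {I : Ideal (MvPolynomial σ K)} (hI : I ≤ L K (W a c))
    (n : ℕ) : I ^ n ≤ L K (W a (n * c)) := by
  induction n with
  | zero => intro f _; simpa using mem_W_zero a f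
  | succ n ih =>
    rw [pow_succ, Nat.succ_mul]
    exact Ideal.mul_le.2 fun f hf g hg => mul_mem_W a (ih hf) (hI hg)

theorem pow_not_mem_W (a : σ → ℕ) {m : ℕ} {f : MvPolynomial σ K} (hf : f ∈ L K (W a m))
    (hf' : f ∉ L K (W a (m + 1))) (n : ℕ) : f ^ n ∉ L K (W a (n * m + 1)) := by
  classical
  set f0 := weightedHomogeneousComponent a m f with hf0
  have hhom : IsWeightedHomogeneous a f0 m := weightedHomogeneousComponent_isWeightedHomogeneous m f
  have h1 : f - f0 ∈ L K (W a (m + 1)) := by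
    rw [mem_L (W_up _ _)] at hf ⊢
    intro α hα
    rw [coeff_sub, hf0, coeff_weightedHomogeneousComponent] at hα
    by_cases h : Finsupp.weight a α = m
    · simp [h] at hα
    · rw [if_neg h, sub_zero] at hα
      have := hf α hα
      simp only [W, Set.mem_ofPred_eq] at this ⊢
      omega
  have h2 : f0 ≠ 0 := by
    intro h
    rw [h, sub_zero] at h1
    exact hf' h1
  have h3 : f0 ∈ L K (W a m) := by
    rw [mem_L (W_up _ _)]
    intro α hα
    exact (hhom hα).ge
  have h4 : ∀ k : ℕ, f ^ k - f0 ^ k ∈ L K (W a (k * m + 1)) := by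
    intro k
    induction k with
    | zero => simp
    | succ k ih =>
      have : f ^ (k + 1) - f0 ^ (k + 1) = f * (f ^ k - f0 ^ k) + (f - f0) * f0 ^ k := by ring
      rw [this]
      refine Ideal.add_mem _ ?_ ?_
      · exact W_anti a (by rw [Nat.succ_mul]; omega) (mul_mem_W a hf ih)
      · exact W_anti a (by rw [Nat.succ_mul]; omega) (mul_mem_W a h1 (pow_mem_W a h3 k))
  intro h
  have h5 : f0 ^ n ∈ L K (W a (n * m + 1)) := by
    have := Ideal.sub_mem _ h (h4 n)
    simpa using this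
  obtain ⟨α, hα⟩ := ne_zero_iff.1 (pow_ne_zero n h2)
  have h6 := (mem_L (W_up _ _)).1 h5 α hα
  have h7 := hhom.pow n hα
  simp only [W, Set.mem_ofPred_eq, smul_eq_mul] at h6 h7
  omega

theorem integral_mem_W (a : σ → ℕ) {c : ℕ} {I : Ideal (MvPolynomial σ K)} (hI : I ≤ L K (W a c))
    {f : MvPolynomial σ K} {n : ℕ} (u : ℕ → MvPolynomial σ K) (hu : ∀ i, u i ∈ I ^ i)
    (heq : f ^ n + ∑ i ∈ Finset.range n, u (n - i) * f ^ i = 0) : f ∈ L K (W a c) := by
  have key : ∀ m, m ≤ c → f ∈ L K (W a m) := by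
    intro m
    induction m with
    | zero => intro _; exact mem_W_zero a f
    | succ m ih =>
      intro hm
      have hf := ih (by omega)
      by_contra hf'
      apply pow_not_mem_W a hf hf' n
      rw [eq_neg_of_add_eq_zero_left heq]
      refine neg_mem (Ideal.sum_mem _ fun i hi => ?_)
      have hi' := Finset.mem_range.1 hi
      refine W_anti a ?_ (mul_mem_W a (ideal_pow_le_W a hI _ (hu (n - i))) (pow_mem_W a hf i))
      obtain ⟨k, rfl⟩ : ∃ k, n = i + (k + 1) := ⟨n - i - 1, by omega⟩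
      rw [Nat.add_sub_cancel_left]
      nlinarith
  exact key c le_rfl

/-- `U` does not depend on the exponent of the variable `p`. -/
def Indep (U : Set (σ →₀ ℕ)) (p : σ) : Prop := ∀ α, α + Finsupp.single p 1 ∈ U → α ∈ U

theorem Indep.union {U V : Set (σ →₀ ℕ)} {p : σ} (hU : Indep U p) (hV : Indep V p) :
    Indep (U ∪ V) p := by
  rintro α (h | h)
  · exact Or.inl (hU _ h)
  · exact Or.inr (hV _ h)

theorem W_indep (a : σ → ℕ) (c : ℕ) {p : σ} (h : a p = 0) : Indep (W a c) p := by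
  intro α hα
  simp only [W, Set.mem_ofPred_eq, map_add, Finsupp.weight_single, h, smul_eq_mul] at hα ⊢
  omega

theorem mem_of_X_mul_mem {U : Set (σ →₀ ℕ)} (hU : UpC U) {p : σ} (hp : Indep U p)
    {w : MvPolynomial σ K} (h : X p * w ∈ L K U) : w ∈ L K U := by
  rw [mem_L hU] at h ⊢
  intro α hα
  apply hp
  apply h
  rw [add_comm, coeff_X_mul]
  exact hα

theorem mem_of_add_mul_mem {U : Set (σ →₀ ℕ)} (hU : UpC U) {p p' : σ} (hpp : p ≠ p')
    (hp : Indep U p) {w : MvPolynomial σ K} (h : (X p + X p') * w ∈ L K U) : w ∈ L K U := by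
  classical
  rw [mem_L hU] at h ⊢
  by_contra hcon
  push Not at hcon
  obtain ⟨β0, hβ0, hβ0'⟩ := hcon
  obtain ⟨β, hβ, hmax⟩ := Finset.exists_max_image (w.support.filter fun α => α ∉ U)
    (fun α => α p) ⟨β0, by simp [hβ0, hβ0']⟩
  simp only [Finset.mem_filter, mem_support_iff] at hβ hmax
  apply hβ.2
  apply hp
  by_contra hnot
  have h0 : coeff (β + Finsupp.single p 1) (X p' * w) = 0 := by
    rw [coeff_X_mul']
    split_ifs with hmem
    · by_contra hne
      have hle : Finsupp.single p' 1 ≤ β + Finsupp.single p 1 := by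
        rw [Finsupp.single_le_iff]
        have := Finsupp.mem_support_iff.1 hmem
        omega
      have hU' : β + Finsupp.single p 1 - Finsupp.single p' 1 ∉ U := by
        intro hmemU
        have := hU _ (Finsupp.single p' 1) hmemU
        rw [tsub_add_cancel_of_le hle] at this
        exact hnot this
      have := hmax _ ⟨hne, hU'⟩
      simp [hpp] at this
    · rfl
  apply hnot
  apply h
  rw [add_mul, coeff_add, h0, add_zero, add_comm, coeff_X_mul]
  exact hβ.1

theorem indep_sub {U : Set (σ →₀ ℕ)} {p : σ} (hp : Indep U p) (α : σ →₀ ℕ) (k : ℕ)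
    (h : α + Finsupp.single p k ∈ U) : α ∈ U := by
  induction k with
  | zero => simpa using h
  | succ k ih =>
    apply ih
    apply hp
    rwa [add_assoc, ← Finsupp.single_add]

theorem second_regular {U : Set (σ →₀ ℕ)} (hU : UpC U) {p p' q q' : σ} (hpp : p ≠ p')
    (hqq : q ≠ q') (hqp : q ≠ p) (hqp' : q' ≠ p) (hp : Indep U p) (hq : Indep U q)
    {w c : MvPolynomial σ K} (h : (X q + X q') * w - (X p + X p') * c ∈ L K U) :
    ∃ c', w - (X p + X p') * c' ∈ L K U := by
  classical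
  let ψ : MvPolynomial σ K →ₐ[K] MvPolynomial σ K :=
    aeval fun i => if i = p then -X p' else X i
  have hψp : ψ (X p) = -X p' := by simp [ψ]
  have hψ : ∀ i, i ≠ p → ψ (X i) = X i := by
    intro i hi; simp [ψ, hi]
  have h1 : ∀ y : MvPolynomial σ K, ∃ c', y - ψ y = (X p + X p') * c' := by
    intro y
    induction y using MvPolynomial.induction_on with
    | C a => exact ⟨0, by simp [ψ]⟩
    | add y z hy hz =>
      obtain ⟨c1, h1⟩ := hy
      obtain ⟨c2, h2⟩ := hz
      exact ⟨c1 + c2, by rw [map_add, mul_add, ← h1, ← h2]; ring⟩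
    | mul_X y i hy =>
      obtain ⟨c1, h1⟩ := hy
      by_cases hi : i = p
      · subst hi
        refine ⟨c1 * X i + ψ y, ?_⟩
        rw [map_mul, hψp, mul_add, ← mul_assoc, ← h1]; ring
      · refine ⟨c1 * X i, ?_⟩
        rw [map_mul, hψ i hi, ← mul_assoc, ← h1]; ring
  have h2 : ∀ y ∈ L K U, ψ y ∈ L K U := by
    have : L K U ≤ (L K U).comap ψ := by
      rw [L, Ideal.span_le]
      rintro _ ⟨α, hα, rfl⟩
      change ψ (monomial α 1) ∈ L K U
      have hsplit : α = α.erase p + Finsupp.single p (α p) := (Finsupp.erase_add_single p α).symm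
      have hmem : α.erase p ∈ U := indep_sub hp _ (α p) (hsplit ▸ hα)
      have hmon : (monomial α (1 : K) : MvPolynomial σ K) =
          monomial (α.erase p) 1 * monomial (Finsupp.single p (α p)) 1 := by
        rw [monomial_mul, ← hsplit, one_mul]
      rw [hmon, map_mul]
      refine Ideal.mul_mem_right _ _ ?_
      have hfix : ψ (monomial (α.erase p) (1 : K)) = monomial (α.erase p) 1 := by
        simp only [ψ]
        rw [aeval_monomial, monomial_eq, map_one, map_one]
        congr 1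
        refine Finsupp.prod_congr fun i hi => ?_
        have : i ≠ p := by
          rw [Finsupp.support_erase] at hi
          exact (Finset.mem_erase.1 hi).1
        rw [if_neg this]
      rw [hfix]
      exact monomial_mem_L hmem
    exact fun y hy => this hy
  have h3 := h2 _ h
  rw [map_sub, map_mul, map_mul, map_add, map_add, hψp, hψ q hqp, hψ q' hqp', hψ p' hpp.symm,
    neg_add_cancel, zero_mul, sub_zero] at h3
  have h4 := mem_of_add_mul_mem hU hqq hq h3
  obtain ⟨c', hc'⟩ := h1 w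
  refine ⟨c', ?_⟩
  rw [← hc']
  simpa using h4

/-- Gluing modulo finitely many monomial ideals. -/
theorem glue {ι : Type} [Fintype ι] (U : ι → Set (σ →₀ ℕ)) (hU : ∀ j, UpC (U j))
    (u : ι → MvPolynomial σ K)
    (h : ∀ j k β, β ∉ U j → β ∉ U k → coeff β (u j) = coeff β (u k)) :
    ∃ v : MvPolynomial σ K, ∀ j, v - u j ∈ L K (U j) := by
  classical
  let c : (σ →₀ ℕ) → K := fun β => if hβ : ∃ j, β ∉ U j then coeff β (u hβ.choose) else 0
  let B : Finset (σ →₀ ℕ) := Finset.univ.biUnion fun j => (u j).support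
  refine ⟨∑ β ∈ B, monomial β (c β), fun j => ?_⟩
  rw [mem_L (hU j)]
  intro β hβ
  by_contra hnot
  apply hβ
  have hex : ∃ j, β ∉ U j := ⟨j, hnot⟩
  have hc : c β = coeff β (u j) := by
    simp only [c, dif_pos hex]
    exact h _ _ β hex.choose_spec hnot
  rw [coeff_sub, coeff_sum, sub_eq_zero]
  simp only [coeff_monomial]
  rw [Finset.sum_ite_eq' B β]
  split_ifs with hB
  · exact hc
  · by_contra hne
    apply hB
    simp only [B, Finset.mem_biUnion, Finset.mem_univ, true_and]
    exact ⟨j, mem_support_iff.2 (fun h0 => hne h0.symm)⟩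

theorem coeff_eq_of_sub_mem {U : Set (σ →₀ ℕ)} (hU : UpC U) {u v : MvPolynomial σ K}
    (h : u - v ∈ L K U) {β : σ →₀ ℕ} (hβ : β ∉ U) : coeff β u = coeff β v := by
  by_contra hne
  apply hβ
  apply (mem_L hU).1 h
  rw [coeff_sub]
  exact sub_ne_zero.2 hne

section Reg

open Pointwise

variable {R : Type} [CommRing R]

theorem mk_mem_smul_top (J : Ideal R) (f w : R) :
    (Ideal.Quotient.mk J w) ∈ (f • (⊤ : Submodule R (R ⧸ J)) : Submodule R (R ⧸ J)) ↔
      ∃ c, w - f * c ∈ J := by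
  rw [Submodule.mem_smul_pointwise_iff_exists]
  constructor
  · rintro ⟨b, -, hb⟩
    obtain ⟨c, rfl⟩ := Ideal.Quotient.mk_surjective b
    refine ⟨c, ?_⟩
    rw [← Ideal.Quotient.eq, ← hb]
    rfl
  · rintro ⟨c, hc⟩
    refine ⟨Ideal.Quotient.mk J c, trivial, ?_⟩
    rw [← Ideal.Quotient.eq] at hc
    rw [hc]
    rfl

theorem weaklyRegular_pair_iff (J : Ideal R) (f g : R) :
    RingTheory.Sequence.IsWeaklyRegular (R ⧸ J) [f, g] ↔
      (∀ w, f * w ∈ J → w ∈ J) ∧ (∀ w c, g * w - f * c ∈ J → ∃ c', w - f * c' ∈ J) := by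
  rw [RingTheory.Sequence.isWeaklyRegular_cons_iff,
    RingTheory.Sequence.isWeaklyRegular_singleton_iff,
    isSMulRegular_quotient_iff_mem_of_smul_mem, isSMulRegular_quotient_iff_mem_of_smul_mem]
  refine and_congr Iff.rfl ?_
  constructor
  · intro h w c hc
    rw [← mk_mem_smul_top]
    apply h
    exact (mk_mem_smul_top J f (g * w)).2 ⟨c, hc⟩
  · intro h x hx
    obtain ⟨w, rfl⟩ := Ideal.Quotient.mk_surjective x
    obtain ⟨c, hc⟩ := (mk_mem_smul_top J f (g * w)).1 hx
    exact (mk_mem_smul_top J f w).2 (h w c hc)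

end Reg

end Pool.Agent.Lib.MP_30655b_al
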