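import Mathlib

set_option autoImplicit false

namespace Pool.Agent.Lib.MP_30655b_al

/-- A point of the homogenised lattice: eight exponents and a level. -/
structure P9 where
  (a b c d e f g h t : ℤ)

/-- The sixteen linear forms cutting out the cone. -/
def s : ℕ → P9 → ℤ
  | 0, y => y.a
  | 1, y => y.b
  | 2, y => y.c
  | 3, y => y.d
  | 4, y => y.e
  | 5, y => y.f
  | 6, y => y.g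
  | 7, y => y.h
  | 8, y => y.t
  | 9, y => y.a + y.b + y.c + y.d + y.e + y.f + y.g + y.h - 13 * y.t
  | 10, y => 4 * y.c + 4 * y.d + y.e + 2 * y.f + 2 * y.g + 2 * y.h - 23 * y.t
  | 11, y => 4 * y.a + 4 * y.b + 3 * y.e + 2 * y.f + 2 * y.g + 2 * y.h - 28 * y.t
  | 12, y => 2 * y.b + 2 * y.d + y.e + y.f + y.h - 9 * y.t
  | 13, y => 2 * y.a + 2 * y.c + y.e + y.f + 2 * y.g + y.h - 16 * y.t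
  | 14, y => y.e + y.f - 5 * y.t
  | 15, y => y.g + y.h - 7 * y.t
  | _, _ => 0

/-- Linear combination `p y + q v`. -/
def comb (p : ℤ) (y : P9) (q : ℤ) (v : P9) : P9 :=
  ⟨p * y.a + q * v.a, p * y.b + q * v.b, p * y.c + q * v.c, p * y.d + q * v.d, p * y.e + q * v.e,
    p * y.f + q * v.f, p * y.g + q * v.g, p * y.h + q * v.h, p * y.t + q * v.t⟩

theorem s_comb (l : ℕ) (p : ℤ) (y : P9) (q : ℤ) (v : P9) :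
    s l (comb p y q v) = p * s l y + q * s l v := by
  unfold s comb
  split <;> ring

def zero9 : P9 := ⟨0, 0, 0, 0, 0, 0, 0, 0, 0⟩

def Cone (y : P9) : Prop := ∀ l, l < 16 → 0 ≤ s l y

def Tight (T : ℕ) (y : P9) : Prop := ∀ l, l < 16 → T.testBit l = true → s l y = 0

/-- Sums of cone points of level at most one. -/
inductive Gen : P9 → Prop
  | zero : Gen zero9
  | add (y v : P9) : Gen y → Cone v → v.t ≤ 1 → Gen (comb 1 y 1 v)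

def Good (y : P9) : Prop := ∃ k : ℤ, 0 < k ∧ Gen (comb k y 0 y)

def Claim (T : ℕ) : Prop := ∀ y, Cone y → Tight T y → Good y

theorem gen_add_mul (y v : P9) (hy : Gen y) (hv : Cone v) (ht : v.t ≤ 1) (n : ℕ) :
    Gen (comb 1 y n v) := by
  induction n with
  | zero =>
    have : comb 1 y ((0 : ℕ) : ℤ) v = y := by
      cases y; simp [comb]
    rw [this]; exact hy
  | succ n ih =>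
    have : comb 1 y ((n + 1 : ℕ) : ℤ) v = comb 1 (comb 1 y n v) 1 v := by
      simp only [comb, P9.mk.injEq]; push_cast
      refine ⟨?_, ?_, ?_, ?_, ?_, ?_, ?_, ?_, ?_⟩ <;> ring
    rw [this]; exact Gen.add _ _ ih hv ht

theorem claim_base : Claim 511 := by
  intro y _ hT
  have h0 := hT 0 (by norm_num) (by decide)
  have h1 := hT 1 (by norm_num) (by decide)
  have h2 := hT 2 (by norm_num) (by decide)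
  have h3 := hT 3 (by norm_num) (by decide)
  have h4 := hT 4 (by norm_num) (by decide)
  have h5 := hT 5 (by norm_num) (by decide)
  have h6 := hT 6 (by norm_num) (by decide)
  have h7 := hT 7 (by norm_num) (by decide)
  have h8 := hT 8 (by norm_num) (by decide)
  refine ⟨1, one_pos, ?_⟩
  have : comb 1 y 0 y = zero9 := by
    simp only [s] at h0 h1 h2 h3 h4 h5 h6 h7 h8
    simp [comb, zero9, h0, h1, h2, h3, h4, h5, h6, h7, h8]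
  rw [this]; exact Gen.zero

/-- Evaluation of a linear relation among the forms. -/
def ev : List ℤ → ℕ → P9 → ℤ
  | [], _, _ => 0
  | c :: cs, k, y => c * s k y + ev cs (k + 1) y

theorem s_expand (l : ℕ) (y : P9) :
    s l y = y.a * s l ⟨1,0,0,0,0,0,0,0,0⟩ + y.b * s l ⟨0,1,0,0,0,0,0,0,0⟩
      + y.c * s l ⟨0,0,1,0,0,0,0,0,0⟩ + y.d * s l ⟨0,0,0,1,0,0,0,0,0⟩
      + y.e * s l ⟨0,0,0,0,1,0,0,0,0⟩ + y.f * s l ⟨0,0,0,0,0,1,0,0,0⟩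
      + y.g * s l ⟨0,0,0,0,0,0,1,0,0⟩ + y.h * s l ⟨0,0,0,0,0,0,0,1,0⟩
      + y.t * s l ⟨0,0,0,0,0,0,0,0,1⟩ := by
  unfold s
  split <;> ring

theorem ev_expand (cs : List ℤ) (k : ℕ) (y : P9) :
    ev cs k y = y.a * ev cs k ⟨1,0,0,0,0,0,0,0,0⟩ + y.b * ev cs k ⟨0,1,0,0,0,0,0,0,0⟩
      + y.c * ev cs k ⟨0,0,1,0,0,0,0,0,0⟩ + y.d * ev cs k ⟨0,0,0,1,0,0,0,0,0⟩
      + y.e * ev cs k ⟨0,0,0,0,1,0,0,0,0⟩ + y.f * ev cs k ⟨0,0,0,0,0,1,0,0,0⟩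
      + y.g * ev cs k ⟨0,0,0,0,0,0,1,0,0⟩ + y.h * ev cs k ⟨0,0,0,0,0,0,0,1,0⟩
      + y.t * ev cs k ⟨0,0,0,0,0,0,0,0,1⟩ := by
  induction cs generalizing k with
  | nil => simp [ev]
  | cons c cs ih =>
    simp only [ev]
    rw [ih (k + 1), s_expand k y]
    ring

/-- Sign check of a relation against its two masks. -/
def signOK : List ℤ → ℕ → ℕ → ℕ → Bool
  | [], _, _, _ => true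
  | c :: cs, k, ng, ps =>
    (decide (0 ≤ c) || ng.testBit k) && (decide (0 < c) || !(ps.testBit k)) &&
      signOK cs (k + 1) ng ps

theorem sign_aux (y : P9) (hy : Cone y) (ng ps : ℕ) (hT : Tight ng y) :
    ∀ (cs : List ℤ) (k : ℕ), k + cs.length = 16 → signOK cs k ng ps = true →
      0 ≤ ev cs k y ∧ (ev cs k y = 0 → ∀ l, k ≤ l → l < 16 → ps.testBit l = true → s l y = 0) := by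
  intro cs
  induction cs with
  | nil =>
    intro k hk _
    refine ⟨by simp [ev], fun _ l h1 h2 _ => ?_⟩
    simp at hk; omega
  | cons c cs ih =>
    intro k hk hs
    simp only [signOK, Bool.and_eq_true, Bool.or_eq_true, decide_eq_true_eq, Bool.not_eq_true']
      at hs
    obtain ⟨⟨h1, h2⟩, h3⟩ := hs
    have hk' : k + 1 + cs.length = 16 := by simp at hk; omega
    obtain ⟨i1, i2⟩ := ih (k + 1) hk' h3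
    have hk16 : k < 16 := by omega
    have hsk := hy k hk16
    have hterm : 0 ≤ c * s k y := by
      rcases h1 with h1 | h1
      · exact mul_nonneg h1 hsk
      · rw [hT k hk16 h1]; simp
    simp only [ev]
    refine ⟨by linarith, fun h0 l hl1 hl2 hl3 => ?_⟩
    rcases Nat.eq_or_lt_of_le hl1 with rfl | hlt
    · rcases h2 with h2 | h2
      · have : c * s k y = 0 := by linarith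
        rcases mul_eq_zero.1 this with h | h
        · omega
        · exact h
      · rw [h2] at hl3; exact absurd hl3 (by simp)
    · exact i2 (by linarith) l hlt hl2 hl3

def ruleOK (r : List ℤ × ℕ × ℕ) : Bool :=
  decide (r.1.length = 16) && signOK r.1 0 r.2.1 r.2.2 &&
    decide (ev r.1 0 ⟨1,0,0,0,0,0,0,0,0⟩ = 0) && decide (ev r.1 0 ⟨0,1,0,0,0,0,0,0,0⟩ = 0) &&
    decide (ev r.1 0 ⟨0,0,1,0,0,0,0,0,0⟩ = 0) && decide (ev r.1 0 ⟨0,0,0,1,0,0,0,0,0⟩ = 0) &&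
    decide (ev r.1 0 ⟨0,0,0,0,1,0,0,0,0⟩ = 0) && decide (ev r.1 0 ⟨0,0,0,0,0,1,0,0,0⟩ = 0) &&
    decide (ev r.1 0 ⟨0,0,0,0,0,0,1,0,0⟩ = 0) && decide (ev r.1 0 ⟨0,0,0,0,0,0,0,1,0⟩ = 0) &&
    decide (ev r.1 0 ⟨0,0,0,0,0,0,0,0,1⟩ = 0)

theorem rule_sound (r : List ℤ × ℕ × ℕ) (hr : ruleOK r = true) (y : P9) (hy : Cone y)
    (hT : Tight r.2.1 y) : Tight r.2.2 y := by
  simp only [ruleOK, Bool.and_eq_true, decide_eq_true_eq] at hr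
  obtain ⟨⟨⟨⟨⟨⟨⟨⟨⟨⟨h0, h1⟩, e1⟩, e2⟩, e3⟩, e4⟩, e5⟩, e6⟩, e7⟩, e8⟩, e9⟩ := hr
  have h := sign_aux y hy r.2.1 r.2.2 hT r.1 0 (by omega) h1
  have hev : ev r.1 0 y = 0 := by
    rw [ev_expand, e1, e2, e3, e4, e5, e6, e7, e8, e9]; ring
  exact fun l hl hb => h.2 hev l (Nat.zero_le _) hl hb

theorem tight_of_sub (A B : ℕ) (h : (A &&& B) = A) (y : P9) (hB : Tight B y) : Tight A y := by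
  intro l hl hb
  apply hB l hl
  rw [← h, Nat.testBit_and] at hb
  simp only [Bool.and_eq_true] at hb
  exact hb.2

theorem tight_or (A B : ℕ) (y : P9) (hA : Tight A y) (hB : Tight B y) : Tight (A ||| B) y := by
  intro l hl hb
  rw [Nat.testBit_or] at hb
  simp only [Bool.or_eq_true] at hb
  rcases hb with hb | hb
  · exact hA l hl hb
  · exact hB l hl hb

/-- One pass of the closure rules. -/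
def clo (T : ℕ) : List (List ℤ × ℕ × ℕ) → ℕ
  | [] => T
  | r :: rs => if (r.2.1 &&& T) = r.2.1 then r.2.2 ||| clo T rs else clo T rs

theorem clo_sound (T : ℕ) (y : P9) (hy : Cone y) (hT : Tight T y) :
    ∀ rs : List (List ℤ × ℕ × ℕ), rs.all ruleOK = true → Tight (clo T rs) y := by
  intro rs
  induction rs with
  | nil => intro _; exact hT
  | cons r rs ih =>
    intro h
    simp only [List.all_cons, Bool.and_eq_true] at h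
    simp only [clo]
    split
    · rename_i hsub
      exact tight_or _ _ y (rule_sound r h.1 y hy (tight_of_sub _ _ hsub y hT)) (ih h.2)
    · exact ih h.2

def anySub (C : ℕ) : List ℕ → Bool
  | [] => false
  | D :: Ds => decide ((D &&& C) = D) || anySub C Ds

theorem anySub_sound (C : ℕ) : ∀ Ds : List ℕ, anySub C Ds = true → ∃ D ∈ Ds, (D &&& C) = D := by
  intro Ds
  induction Ds with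
  | nil => simp [anySub]
  | cons D Ds ih =>
    simp only [anySub, Bool.or_eq_true, decide_eq_true_eq]
    rintro (h | h)
    · exact ⟨D, by simp, h⟩
    · obtain ⟨E, hE, h⟩ := ih h
      exact ⟨E, by simp [hE], h⟩

def nodeOK (rs : List (List ℤ × ℕ × ℕ)) (done : List ℕ) (T : ℕ) (v : P9) : Bool :=
  decide (v.t ≤ 1) && (List.range 16).any (fun l => decide (0 < s l v)) &&
    (List.range 16).all (fun l => decide (s l v = 0) ||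
      (decide (0 < s l v) && !(T.testBit l) && anySub (clo (T ||| 2 ^ l) rs) done))

theorem node_sound (rs : List (List ℤ × ℕ × ℕ)) (hrs : rs.all ruleOK = true) (done : List ℕ)
    (hdone : ∀ D ∈ done, Claim D) (T : ℕ) (v : P9) (h : nodeOK rs done T v = true) :
    Claim T := by
  simp only [nodeOK, Bool.and_eq_true, decide_eq_true_eq, List.any_eq_true, List.all_eq_true,
    List.mem_range, Bool.or_eq_true, Bool.not_eq_true'] at h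
  obtain ⟨⟨ht, l0, hl0, hl0'⟩, hall⟩ := h
  have hv : Cone v := fun l hl => by
    rcases hall l hl with h | h
    · omega
    · exact h.1.1.le
  intro y hy hT
  obtain ⟨j, hj, hmin⟩ := Finset.exists_min_image
    ((Finset.range 16).filter fun l => 0 < s l v) (fun l => (s l y : ℚ) / (s l v : ℚ))
    ⟨l0, by simp [hl0, hl0']⟩
  simp only [Finset.mem_filter, Finset.mem_range] at hj hmin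
  obtain ⟨hj16, hjv⟩ := hj
  have hjy := hy j hj16
  set y' := comb (s j v) y (-(s j y)) v with hy'
  have hcone : Cone y' := by
    intro l hl
    rw [hy', s_comb]
    rcases hall l hl with h | h
    · rw [h]; have := mul_nonneg hjv.le (hy l hl); linarith
    · have h1 := hmin l ⟨hl, h.1.1⟩
      have p1 : (0 : ℚ) < (s j v : ℚ) := by exact_mod_cast hjv
      have p2 : (0 : ℚ) < (s l v : ℚ) := by exact_mod_cast h.1.1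
      rw [div_le_div_iff₀ p1 p2] at h1
      have h2 : s j y * s l v ≤ s l y * s j v := by exact_mod_cast h1
      linarith
  have htight : Tight (T ||| 2 ^ j) y' := by
    apply tight_or
    · intro l hl hb
      rw [hy', s_comb, hT l hl hb]
      rcases hall l hl with h | h
      · rw [h]; ring
      · rw [h.1.2] at hb; exact absurd hb (by simp)
    · intro l hl hb
      rw [Nat.testBit_two_pow] at hb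
      simp only [decide_eq_true_eq] at hb
      subst hb
      rw [hy', s_comb]; ring
  rcases hall j hj16 with h | h
  · omega
  obtain ⟨D, hD, hsub⟩ := anySub_sound _ _ h.2
  obtain ⟨k, hk, hgen⟩ := hdone D hD y' hcone
    (tight_of_sub _ _ hsub y' (clo_sound _ y' hcone htight rs hrs))
  refine ⟨k * s j v, mul_pos hk hjv, ?_⟩
  have hn : ((k * s j y).toNat : ℤ) = k * s j y := Int.toNat_of_nonneg (mul_nonneg hk.le hjy)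
  have := gen_add_mul _ v hgen hv ht (k * s j y).toNat
  rw [hn] at this
  have heq : comb 1 (comb k y' 0 y') (k * s j y) v = comb (k * s j v) y 0 y := by
    simp only [hy', comb, P9.mk.injEq]
    refine ⟨?_, ?_, ?_, ?_, ?_, ?_, ?_, ?_, ?_⟩ <;> ring
  rwa [heq] at this

def run (rs : List (List ℤ × ℕ × ℕ)) : List ℕ → List (ℕ × P9) → Bool
  | done, [] => anySub 0 done
  | done, nd :: nds => nodeOK rs done nd.1 nd.2 && run rs (nd.1 :: done) nds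

theorem run_sound (rs : List (List ℤ × ℕ × ℕ)) (hrs : rs.all ruleOK = true) :
    ∀ (nds : List (ℕ × P9)) (done : List ℕ), (∀ D ∈ done, Claim D) → run rs done nds = true →
      ∀ y, Cone y → Good y := by
  intro nds
  induction nds with
  | nil =>
    intro done hdone h y hy
    obtain ⟨D, hD, hsub⟩ := anySub_sound _ _ h
    refine hdone D hD y hy (tight_of_sub _ _ hsub y ?_)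
    intro l _ hb
    simp at hb
  | cons nd nds ih =>
    intro done hdone h
    simp only [run, Bool.and_eq_true] at h
    refine ih (nd.1 :: done) ?_ h.2
    intro D hD
    rcases List.mem_cons.1 hD with rfl | hD
    · exact node_sound rs hrs done hdone _ _ h.1
    · exact hdone D hD

def rules : List (List ℤ × ℕ × ℕ) := [
  ([1,1,1,1,1,1,0,0,0,11,0,0,-6,-6,0,1], 12288, 33343),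
  ([1,1,1,1,0,0,1,1,0,31,-8,-8,0,0,1,0], 3072, 17103),
  ([0,10,8,18,0,2,-5,0,0,-18,0,2,0,5,7,9], 576, 59438),
  ([10,0,10,0,3,3,0,-5,0,0,0,0,0,-5,2,10], 8320, 49205),
  ([2,0,2,0,1,1,1,0,-9,0,0,0,0,-1,0,1], 8448, 32885),
  ([28,28,0,0,0,-7,1,1,0,0,0,-7,0,0,21,13], 2080, 49347),
  ([0,0,4,4,-1,0,0,0,0,-4,0,1,0,0,2,2], 528, 51212),
  ([4,4,0,0,1,0,2,2,0,0,18,17,-36,-36,2,0], 12288, 19667),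
  ([2,0,2,0,1,1,1,0,0,38,-10,-10,1,0,0,1], 3072, 37493),
  ([0,2,0,2,1,1,0,1,-10,-2,0,0,0,1,0,0], 768, 8378),
  ([4,2,4,2,0,0,0,-1,0,-4,0,0,1,0,3,4], 640, 53263),
  ([8,36,-28,0,13,4,-14,0,0,0,0,-9,0,14,0,4], 2116, 41011),
  ([0,0,28,28,-7,0,1,1,0,0,-7,0,0,0,14,13], 1040, 49356),
  ([-4,2,0,6,0,1,-2,1,1,0,0,1,-3,0,0,0], 4161, 2474),
  ([10,14,-10,-6,0,-5,0,2,0,-14,5,0,0,2,7,0], 556, 25731),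
  ([-5,-5,-5,-5,1,1,0,0,0,5,0,0,0,0,-6,-5], 49167, 560),
  ([4,4,0,0,1,0,2,2,-18,0,0,-1,0,0,2,0], 2304, 16595),
  ([4,-4,4,-4,0,0,0,-4,15,0,1,1,0,-4,0,4], 8330, 36101),
  ([8,18,0,10,2,0,-5,0,0,-18,2,0,0,5,9,9], 576, 58395),
  ([-28,-28,-28,-28,0,0,3,3,0,0,7,7,0,0,-28,-31], 49167, 3264),
  ([0,0,4,4,0,1,2,2,-18,0,-1,0,0,0,1,0], 1280, 16620),
  ([-2,0,2,4,0,1,-1,0,0,0,-1,0,0,1,0,1], 1089, 41004),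
  ([-10,-8,10,12,-4,1,0,1,0,-12,0,5,0,1,0,0], 531, 10412),
  ([0,0,0,0,0,0,0,0,1,4,-1,-1,0,0,0,0], 3072, 768),
  ([0,2,0,2,1,1,0,1,-9,0,0,0,-1,0,0,0], 4352, 186),
  ([-2,-2,-2,-2,0,0,0,0,1,0,0,0,1,1,-2,-2], 49167, 12544),
  ([14,-28,42,0,0,7,5,-16,0,-42,0,7,21,0,0,23], 642, 39013),
  ([0,0,0,0,0,0,0,0,1,2,0,0,-1,-1,0,0], 12288, 768),
  ([4,-4,4,-4,0,0,4,0,-13,0,1,1,0,-4,0,0], 8458, 3141),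
  ([-2,-2,2,2,-1,0,0,0,3,2,-1,0,0,0,0,0], 1043, 780),
  ([8,4,-4,-8,3,0,0,-2,0,4,0,-3,2,0,0,2], 2188, 37395),
  ([0,2,0,2,1,1,0,1,0,38,-10,-10,0,1,0,0], 3072, 8890),
  ([4,4,0,0,0,-1,0,0,1,0,0,-1,0,0,3,2], 2080, 49411),
  ([-28,-28,0,0,-7,0,4,4,0,0,0,7,0,0,-14,-18], 49171, 2240),
  ([-1,5,-1,5,2,2,-3,0,0,1,0,0,-3,0,0,2], 4165, 33338),
  ([0,2,0,2,0,0,-1,0,2,-2,0,0,0,1,1,1], 576, 57610),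
  ([2,0,2,0,0,0,0,-1,0,-6,0,0,3,2,1,2], 640, 61445),
  ([8,44,-36,0,11,0,-14,4,0,0,0,-11,0,18,4,0], 2116, 24723),
  ([0,-20,20,0,-9,-4,10,0,0,0,0,5,0,-10,4,0], 8242, 18500),
  ([20,20,0,0,1,-4,0,0,0,0,0,-5,0,0,14,10], 2080, 49171),
  ([-1,-1,3,3,0,1,0,0,-3,1,-1,0,0,0,0,1], 1283, 33324),
  ([0,-14,28,14,0,7,1,-6,0,14,-7,0,0,-7,0,13], 9346, 33388),
  ([0,0,-28,-28,0,-7,4,4,0,0,7,0,0,0,-7,-18], 49196, 1216),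
  ([0,0,4,4,1,2,0,0,-10,-4,0,1,0,0,0,2], 768, 34876),
  ([20,0,0,-20,-4,-9,10,0,0,0,5,0,0,-10,9,0], 8248, 17473),
  ([10,0,10,0,2,2,0,-5,0,-10,0,0,5,0,3,10], 640, 53301),
  ([2,0,2,0,0,0,0,-1,2,-2,0,0,1,0,1,2], 640, 53509),
  ([0,14,0,14,0,0,-5,2,0,-14,0,0,0,7,7,5], 576, 57482),
  ([4,4,0,0,0,-1,0,0,0,-4,1,0,0,0,3,2], 544, 50179),
  ([0,-4,20,16,-5,0,2,0,0,0,-4,1,0,-2,8,8], 9234, 51276),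
  ([10,16,-10,-4,0,-5,0,3,0,4,0,-5,0,3,8,0], 2092, 25219),
  ([-36,20,-56,0,-13,-18,0,28,0,0,14,9,-28,0,0,-46], 36917, 3202),
  ([0,-2,4,2,0,1,0,-1,0,0,-1,0,1,0,0,2], 1154, 36908),
  ([0,0,4,4,-1,0,0,0,1,0,-1,0,0,0,2,2], 1040, 49420),
  ([18,16,2,0,0,-4,1,0,0,0,0,-4,0,-1,13,9], 10272, 49223),
  ([20,22,0,2,0,-5,0,1,0,-2,0,-5,0,1,16,10], 2592, 57483),
  ([10,10,-10,-10,2,-3,0,0,0,-10,5,0,0,0,3,0], 556, 17427),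
  ([2,2,-2,-2,1,0,0,0,-2,2,0,-1,0,0,0,0], 2316, 531),
  ([2,2,-2,-2,0,-1,0,0,2,-2,1,0,0,0,1,0], 556, 17667),
  ([2,2,-2,-2,0,-1,0,0,0,-10,3,2,0,0,1,0], 556, 19459),
  ([0,2,20,22,-5,0,0,1,0,-2,-5,0,0,1,11,10], 1552, 57486),
  ([-4,4,-4,4,0,0,0,4,-13,0,1,1,-4,0,0,-4], 37125, 3210),
  ([4,2,0,-2,1,0,0,-1,0,0,0,-1,1,0,1,2], 2184, 53267),
  ([2,0,18,16,-4,0,1,0,0,0,-4,0,0,-1,9,9], 9232, 49229),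
  ([-2,-2,2,2,-1,0,0,0,2,-2,0,1,0,0,0,0], 531, 2316),
  ([0,0,20,20,-4,1,0,0,0,0,-5,0,0,0,9,10], 1040, 49196),
  ([16,18,0,2,0,-4,0,1,0,0,0,-4,-1,0,13,8], 6176, 49291),
  ([4,8,-8,-4,3,0,-2,0,0,4,0,-3,0,2,0,0], 2124, 8723),
  ([20,16,0,-4,0,-5,2,0,0,0,1,-4,0,-2,13,8], 10280, 50243),
  ([28,0,0,-28,7,0,4,-10,0,0,0,-7,14,0,0,10], 2184, 36945),
  ([14,0,14,0,0,0,2,-5,0,-14,0,0,7,0,7,12], 640, 53317),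
  ([0,4,-4,0,1,0,-2,0,4,0,0,-1,0,2,0,0], 2116, 8466),
  ([9,9,-7,-7,0,-4,1,1,0,-9,4,0,0,0,5,0], 556, 17603),
  ([-4,0,16,20,-5,0,0,2,0,0,-4,1,-2,0,8,6], 5137, 51340),
  ([4,0,0,-4,1,0,0,-2,4,0,0,-1,2,0,0,2], 2184, 37137),
  ([-7,-7,9,9,-4,0,1,1,0,-9,0,4,0,0,1,0], 531, 18636),
  ([-2,0,2,4,0,1,0,1,-6,2,-1,0,-1,0,0,0], 5377, 684),
  ([-4,-4,0,0,-3,-2,0,0,14,0,0,1,0,0,0,-2], 32819, 2304),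
  ([2,0,2,0,0,0,2,1,-11,0,0,0,0,-1,1,0], 8448, 16581),
  ([0,2,16,18,-4,0,0,1,0,0,-4,0,-1,0,9,8], 5136, 49294),
  ([-2,-4,2,0,-1,0,1,0,0,0,0,1,0,-1,-1,-1], 57363, 2116),
  ([-2,0,6,8,-2,0,0,1,0,2,-2,0,-1,0,3,2], 5137, 49804),
  ([-10,-20,10,0,2,7,0,-5,0,10,-5,0,5,0,-12,0], 17539, 4660),
  ([0,0,4,4,1,2,0,0,-9,0,-1,0,0,0,0,2], 1280, 32828),
  ([2,0,2,0,0,0,1,0,-5,-2,0,0,1,0,1,1], 768, 53317),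
  ([-20,0,-20,0,9,9,-10,0,0,0,5,5,-10,0,-19,-10], 53317, 3120),
  ([2,-4,6,0,0,1,3,0,-12,4,-1,0,0,-3,0,1], 9474, 33381),
  ([-36,0,8,44,0,11,-14,4,0,0,-11,0,0,18,-7,0], 17473, 8364),
  ([20,0,-20,-40,13,3,0,-10,0,0,5,-5,10,0,-13,0], 18572, 5169),
  ([0,0,-4,-4,0,-1,0,0,4,0,1,0,0,0,-1,-2], 49196, 1280),
  ([10,0,10,0,-4,-4,5,0,0,0,0,0,0,-5,9,5], 8240, 49221),
  ([-20,-20,0,0,-1,4,0,0,0,0,0,5,0,0,-14,-10], 49171, 2080),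
  ([-4,18,-4,18,7,7,-11,0,0,0,0,0,-9,2,0,7], 4165, 41018),
  ([-4,-8,4,0,0,2,0,-2,3,0,-1,1,2,0,-4,0], 17539, 6436),
  ([10,0,10,0,-11,-11,10,5,0,0,0,0,0,-5,16,0], 8240, 16581),
  ([-4,-2,0,2,-1,0,0,1,0,0,0,1,-1,0,-1,-2], 53267, 2184),
  ([-8,-4,4,8,0,3,-2,0,0,4,-3,0,0,2,-3,0], 17475, 8748),
  ([0,-2,8,6,-2,0,1,0,0,2,-2,0,0,-1,3,3], 9234, 49740),
  ([4,4,0,0,3,2,0,0,-14,0,0,-1,0,0,0,2], 2304, 32819),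
  ([-4,0,0,4,0,1,-2,0,4,0,-1,0,0,2,-1,0], 17473, 8488),
  ([0,0,-20,-20,4,-1,0,0,0,0,5,0,0,0,-9,-10], 49196, 1040),
  ([-20,0,0,20,4,9,-10,0,0,0,-5,0,0,10,-9,0], 17473, 8248),
  ([2,0,-2,-4,0,-1,1,0,0,0,1,0,0,-1,0,-1], 41004, 1089),
  ([-4,-4,0,0,-1,0,0,0,4,0,0,1,0,0,-2,-2], 49171, 2304),
  ([7,-7,7,-7,0,0,4,-3,0,7,0,0,0,-7,0,3], 8330, 33349),
  ([-4,-8,8,4,-3,0,2,0,0,0,-2,1,2,0,0,0], 1043, 6220),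
  ([26,0,-22,-48,12,0,2,-11,0,-26,12,0,13,0,-11,0], 17036, 5201),
  ([1,1,5,5,-1,0,0,0,0,-1,-1,0,0,0,3,3], 1552, 49167),
  ([1,-1,1,-1,0,0,1,0,-3,1,0,0,0,-1,0,0], 8458, 581),
  ([-4,-8,0,-4,-1,0,2,0,0,4,0,1,0,-2,-4,-4], 57371, 2624),
  ([-20,-44,24,0,0,11,2,-10,0,0,-11,0,22,10,-21,0], 17539, 12388),
  ([22,20,2,0,0,-5,1,0,0,-2,0,-5,1,0,16,11], 2592, 53319),
  ([-2,0,-2,0,0,0,0,1,-2,2,0,0,-1,0,-1,-2], 53509, 640),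
  ([16,20,-4,0,0,-5,0,2,0,0,1,-4,-2,0,13,6], 6180, 50307),
  ([8,6,0,-2,0,-2,1,0,0,2,0,-2,0,-1,5,3], 10280, 49731),
  ([2,4,-2,0,2,1,0,1,-12,0,0,-1,0,1,0,0], 2308, 8371),
  ([-4,0,-8,-4,0,-1,0,2,0,4,1,0,-2,0,-3,-6], 53293, 1664),
  ([6,8,-2,0,0,-2,0,1,0,2,0,-2,-1,0,5,2], 6180, 49795),
  ([36,8,0,-28,13,4,0,-14,0,0,0,-9,14,0,0,18], 2184, 36915),
  ([-4,2,0,6,0,1,-2,1,2,4,-1,0,-3,0,0,0], 5185, 938),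
  ([0,0,0,0,-1,-1,0,0,5,0,0,0,0,0,1,0], 48, 16640),
  ([-2,0,-2,0,-1,-1,-1,0,9,0,0,0,0,1,0,-1], 32885, 8448),
  ([-8,-4,-4,0,-1,0,0,2,0,4,0,1,-2,0,-4,-6], 53271, 2688),
  ([0,4,-20,-16,5,0,-2,0,0,0,4,-1,0,2,-8,-8], 51276, 9234),
  ([0,0,0,0,0,0,-1,-1,7,0,0,0,0,0,0,1], 192, 33024),
  ([20,8,-8,-20,7,0,0,-6,0,0,0,-7,10,4,0,6], 2188, 45075),
  ([-36,-16,16,36,0,13,-10,0,0,0,-9,4,0,10,-13,0], 17475, 10284),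
  ([0,-4,-4,-8,0,-1,2,0,0,4,1,0,0,-2,-3,-4], 57390, 1600),
  ([0,2,-4,-2,0,-1,0,1,0,0,1,0,-1,0,0,-2], 36908, 1154)]

def nodes : List (ℕ × P9) := [
  (59911, ⟨0,0,0,1,4,1,4,3,1⟩),
  (59482, ⟨1,0,1,0,0,5,0,7,1⟩),
  (59481, ⟨0,1,2,0,0,5,0,7,1⟩),
  (59915, ⟨0,0,1,0,4,1,2,5,1⟩),
  (43535, ⟨0,0,0,0,2,4,3,4,1⟩),
  (58893, ⟨0,1,0,0,1,4,4,3,1⟩),
  (58446, ⟨2,0,0,0,1,4,0,7,1⟩),
  (58894, ⟨1,0,0,0,1,4,2,5,1⟩),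
  (26127, ⟨0,0,0,0,3,2,3,5,1⟩),
  (27151, ⟨0,0,0,0,2,3,3,5,1⟩),
  (58474, ⟨1,0,1,0,5,0,0,7,1⟩),
  (59467, ⟨0,0,2,0,4,1,0,7,1⟩),
  (26655, ⟨0,0,0,0,0,5,2,7,1⟩),
  (25710, ⟨1,0,0,0,5,0,0,9,1⟩),
  (25647, ⟨0,0,0,0,5,0,2,7,1⟩),
  (43039, ⟨0,0,0,0,0,7,2,5,1⟩),
  (55445, ⟨0,1,0,1,0,5,7,0,1⟩),
  (55815, ⟨0,0,0,1,4,1,5,2,1⟩),
  (39439, ⟨0,0,0,0,2,4,4,3,1⟩),
  (42511, ⟨0,0,0,0,3,3,3,4,1⟩),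
  (57451, ⟨0,0,2,0,5,0,0,7,1⟩),
  (54413, ⟨0,2,0,0,1,4,7,0,1⟩),
  (54797, ⟨0,1,0,0,1,4,5,2,1⟩),
  (22031, ⟨0,0,0,0,3,2,4,4,1⟩),
  (54437, ⟨0,1,0,1,5,0,7,0,1⟩),
  (55431, ⟨0,0,0,2,4,1,7,0,1⟩),
  (38943, ⟨0,0,0,0,0,7,5,2,1⟩),
  (38415, ⟨0,0,0,0,3,3,4,3,1⟩),
  (24687, ⟨0,0,0,0,5,0,0,11,1⟩),
  (41055, ⟨0,0,0,0,0,9,0,7,1⟩),
  (59907, ⟨0,0,1,0,4,1,2,5,1⟩),
  (59480, ⟨0,1,2,0,0,5,0,7,1⟩),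
  (59465, ⟨0,0,2,0,4,1,0,7,1⟩),
  (59403, ⟨0,0,2,0,4,1,0,7,1⟩),
  (43531, ⟨0,0,0,0,2,4,3,4,1⟩),
  (43023, ⟨0,0,0,0,0,7,2,5,1⟩),
  (10767, ⟨0,0,0,0,2,3,3,5,1⟩),
  (43527, ⟨0,0,0,0,2,4,3,4,1⟩),
  (58892, ⟨1,0,0,0,1,4,2,5,1⟩),
  (42509, ⟨0,0,0,0,3,3,3,4,1⟩),
  (41487, ⟨0,0,0,0,3,3,3,4,1⟩),
  (58442, ⟨1,0,1,0,5,0,0,7,1⟩),
  (58438, ⟨2,0,0,1,5,0,0,7,1⟩),
  (58382, ⟨2,0,0,0,1,4,0,7,1⟩),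
  (26126, ⟨0,0,0,0,3,2,3,5,1⟩),
  (25615, ⟨0,0,0,0,5,0,2,7,1⟩),
  (42510, ⟨0,0,0,0,3,3,3,4,1⟩),
  (59466, ⟨0,0,2,0,4,1,0,7,1⟩),
  (27147, ⟨0,0,0,0,2,3,3,5,1⟩),
  (26639, ⟨0,0,0,0,0,5,2,7,1⟩),
  (57450, ⟨0,0,2,0,5,0,0,7,1⟩),
  (57419, ⟨0,0,2,0,5,0,0,7,1⟩),
  (25706, ⟨1,0,0,0,5,0,0,9,1⟩),
  (57434, ⟨2,0,0,0,0,5,0,7,1⟩),
  (26714, ⟨0,0,1,0,0,5,0,9,1⟩),
  (26651, ⟨0,0,1,0,0,5,0,9,1⟩),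
  (57422, ⟨2,0,0,0,0,5,0,7,1⟩),
  (25678, ⟨1,0,0,0,5,0,0,9,1⟩),
  (24686, ⟨0,0,0,0,5,0,0,11,1⟩),
  (25646, ⟨1,0,0,0,5,0,0,9,1⟩),
  (25103, ⟨0,0,0,0,3,2,3,5,1⟩),
  (24623, ⟨0,0,0,0,5,0,0,11,1⟩),
  (43098, ⟨0,0,1,0,0,7,0,7,1⟩),
  (43035, ⟨0,0,1,0,0,7,0,7,1⟩),
  (10271, ⟨0,0,0,0,0,5,2,7,1⟩),
  (51719, ⟨0,0,0,1,4,1,5,2,1⟩),
  (55444, ⟨1,0,0,2,0,5,7,0,1⟩),
  (55429, ⟨0,0,0,2,4,1,7,0,1⟩),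
  (55303, ⟨0,0,0,2,4,1,7,0,1⟩),
  (39431, ⟨0,0,0,0,2,4,4,3,1⟩),
  (38927, ⟨0,0,0,0,0,7,5,2,1⟩),
  (6671, ⟨0,0,0,0,2,3,4,4,1⟩),
  (35343, ⟨0,0,0,0,2,4,4,3,1⟩),
  (50701, ⟨0,1,0,0,1,4,5,2,1⟩),
  (9743, ⟨0,0,0,0,3,2,3,5,1⟩),
  (26699, ⟨0,0,1,0,0,5,0,9,1⟩),
  (24683, ⟨0,0,0,0,5,0,0,11,1⟩),
  (54405, ⟨0,1,0,1,5,0,7,0,1⟩),
  (54285, ⟨0,2,0,0,1,4,7,0,1⟩),
  (22029, ⟨0,0,0,0,3,2,4,4,1⟩),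
  (21519, ⟨0,0,0,0,5,0,5,4,1⟩),
  (38413, ⟨0,0,0,0,3,3,4,3,1⟩),
  (17935, ⟨0,0,0,0,3,2,4,4,1⟩),
  (34319, ⟨0,0,0,0,3,3,4,3,1⟩),
  (53413, ⟨0,0,0,2,5,0,7,0,1⟩),
  (53383, ⟨0,0,0,2,5,0,7,0,1⟩),
  (53397, ⟨0,2,0,0,0,5,7,0,1⟩),
  (53389, ⟨0,2,0,0,0,5,7,0,1⟩),
  (37391, ⟨0,0,0,0,3,3,4,3,1⟩),
  (39061, ⟨0,0,0,1,0,7,7,0,1⟩),
  (38935, ⟨0,0,0,1,0,7,7,0,1⟩),
  (5647, ⟨0,0,0,0,3,2,4,4,1⟩),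
  (40991, ⟨0,0,0,0,0,9,0,7,1⟩),
  (36895, ⟨0,0,0,0,0,9,7,0,1⟩),
  (41999, ⟨0,0,0,0,9,0,0,7,1⟩),
  (34847, ⟨0,0,0,0,0,7,5,2,1⟩),
  (24655, ⟨0,0,0,0,0,5,0,11,1⟩),
  (8287, ⟨0,0,0,0,0,5,0,11,1⟩),
  (41039, ⟨0,0,0,0,9,0,0,7,1⟩),
  (32863, ⟨0,0,0,0,0,1,0,0,0⟩),
  (43523, ⟨0,0,0,0,2,4,3,4,1⟩),
  (59464, ⟨0,0,2,0,4,1,0,7,1⟩),
  (43081, ⟨0,0,1,0,0,7,0,7,1⟩),
  (43019, ⟨0,0,1,0,0,7,0,7,1⟩),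
  (10763, ⟨0,0,0,0,2,3,3,5,1⟩),
  (10255, ⟨0,0,0,0,0,5,2,7,1⟩),
  (10759, ⟨0,0,0,0,2,3,3,5,1⟩),
  (42508, ⟨0,0,0,0,3,3,3,4,1⟩),
  (9741, ⟨0,0,0,0,3,2,3,5,1⟩),
  (8719, ⟨0,0,0,0,3,2,3,5,1⟩),
  (58434, ⟨2,0,0,1,5,0,0,7,1⟩),
  (25670, ⟨1,0,0,0,5,0,0,9,1⟩),
  (25614, ⟨1,0,0,0,5,0,0,9,1⟩),
  (9742, ⟨0,0,0,0,3,2,3,5,1⟩),
  (26698, ⟨0,0,1,0,0,5,0,9,1⟩),
  (26635, ⟨0,0,1,0,0,5,0,9,1⟩),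
  (57418, ⟨2,0,0,0,0,5,0,7,1⟩),
  (25674, ⟨1,0,0,0,5,0,0,9,1⟩),
  (24682, ⟨0,0,0,0,5,0,0,11,1⟩),
  (24666, ⟨0,0,0,0,0,5,0,11,1⟩),
  (24603, ⟨0,0,0,0,0,5,0,11,1⟩),
  (24654, ⟨0,0,0,0,0,5,0,11,1⟩),
  (24622, ⟨0,0,0,0,5,0,0,11,1⟩),
  (24591, ⟨0,0,0,0,0,5,0,11,1⟩),
  (43082, ⟨0,0,1,0,0,7,0,7,1⟩),
  (41050, ⟨0,0,0,0,0,9,0,7,1⟩),
  (10330, ⟨0,0,1,0,0,5,0,9,1⟩),
  (40987, ⟨0,0,0,0,0,9,0,7,1⟩),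
  (10267, ⟨0,0,1,0,0,5,0,9,1⟩),
  (51715, ⟨0,0,1,0,4,1,3,4,1⟩),
  (55428, ⟨0,0,0,2,4,1,7,0,1⟩),
  (39045, ⟨0,0,0,1,0,7,7,0,1⟩),
  (38919, ⟨0,0,0,1,0,7,7,0,1⟩),
  (6663, ⟨0,0,0,0,2,3,4,4,1⟩),
  (6159, ⟨0,0,0,0,0,5,5,4,1⟩),
  (35335, ⟨0,0,0,0,2,4,4,3,1⟩),
  (34831, ⟨0,0,0,0,0,7,5,2,1⟩),
  (2575, ⟨0,0,0,0,2,3,4,4,1⟩),
  (50700, ⟨1,0,0,0,1,4,3,4,1⟩),
  (34317, ⟨0,0,0,0,3,3,4,3,1⟩),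
  (33295, ⟨0,0,0,0,3,3,4,3,1⟩),
  (25607, ⟨0,0,0,1,5,0,4,3,1⟩),
  (9735, ⟨0,0,0,1,5,0,4,3,1⟩),
  (24651, ⟨0,0,0,0,0,5,0,11,1⟩),
  (54401, ⟨0,2,1,0,5,0,7,0,1⟩),
  (21637, ⟨0,2,0,0,5,0,9,0,1⟩),
  (21517, ⟨0,2,0,0,5,0,9,0,1⟩),
  (5645, ⟨0,0,0,0,3,2,4,4,1⟩),
  (17423, ⟨0,0,0,0,5,0,5,4,1⟩),
  (1551, ⟨0,0,0,0,3,2,4,4,1⟩),
  (55301, ⟨0,1,0,0,0,5,5,2,1⟩),
  (53381, ⟨0,2,0,0,0,5,7,0,1⟩),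
  (53269, ⟨0,1,0,0,0,5,5,2,1⟩),
  (53261, ⟨0,1,0,0,0,5,5,2,1⟩),
  (39429, ⟨0,1,0,0,0,5,5,2,1⟩),
  (37389, ⟨0,1,0,0,0,5,5,2,1⟩),
  (37013, ⟨0,0,0,0,0,9,7,0,1⟩),
  (36887, ⟨0,0,0,0,0,9,7,0,1⟩),
  (4623, ⟨0,0,0,0,3,2,4,4,1⟩),
  (53255, ⟨0,0,0,1,5,0,5,2,1⟩),
  (37383, ⟨0,0,0,1,5,0,5,2,1⟩),
  (21511, ⟨0,0,0,1,5,0,5,2,1⟩),
  (5639, ⟨0,0,0,1,5,0,5,2,1⟩),
  (40975, ⟨0,0,0,0,9,0,0,7,1⟩),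
  (36879, ⟨0,0,0,0,9,0,7,0,1⟩),
  (33807, ⟨0,0,0,0,9,0,7,0,1⟩),
  (32799, ⟨0,0,0,0,0,1,0,0,0⟩),
  (8223, ⟨0,0,0,0,0,5,0,11,1⟩),
  (9231, ⟨0,0,0,0,9,0,0,7,1⟩),
  (8271, ⟨0,0,0,0,9,0,0,7,1⟩),
  (32847, ⟨0,0,0,0,1,0,0,0,0⟩),
  (10755, ⟨0,0,0,0,2,3,3,5,1⟩),
  (43080, ⟨0,0,1,0,0,7,0,7,1⟩),
  (10313, ⟨0,0,1,0,0,5,0,9,1⟩),
  (10251, ⟨0,0,1,0,0,5,0,9,1⟩),
  (10757, ⟨0,1,0,0,0,5,4,3,1⟩),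
  (9740, ⟨0,0,0,0,3,2,3,5,1⟩),
  (8717, ⟨0,1,0,0,0,5,4,3,1⟩),
  (25666, ⟨1,0,0,0,5,0,0,9,1⟩),
  (25606, ⟨0,0,0,1,5,0,4,3,1⟩),
  (9734, ⟨0,0,0,1,5,0,4,3,1⟩),
  (10758, ⟨1,0,0,0,0,5,2,5,1⟩),
  (8718, ⟨1,0,0,0,0,5,2,5,1⟩),
  (26634, ⟨1,0,0,0,0,5,2,5,1⟩),
  (24650, ⟨0,0,0,0,0,5,0,11,1⟩),
  (24602, ⟨1,0,0,0,0,5,2,5,1⟩),
  (24590, ⟨1,0,0,0,0,5,2,5,1⟩),
  (10314, ⟨0,0,1,0,0,5,0,9,1⟩),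
  (10762, ⟨1,0,0,0,0,5,2,5,1⟩),
  (8282, ⟨0,0,0,0,0,5,0,11,1⟩),
  (8219, ⟨0,0,0,0,0,5,0,11,1⟩),
  (35331, ⟨0,0,0,0,2,4,4,3,1⟩),
  (39044, ⟨0,0,0,1,0,7,7,0,1⟩),
  (6277, ⟨0,0,0,2,0,5,9,0,1⟩),
  (6151, ⟨0,0,0,2,0,5,9,0,1⟩),
  (2567, ⟨0,0,0,0,2,3,4,4,1⟩),
  (10253, ⟨0,1,0,0,0,5,4,3,1⟩),
  (2063, ⟨0,0,0,0,0,5,5,4,1⟩),
  (34316, ⟨0,0,0,0,3,3,4,3,1⟩),
  (1549, ⟨0,0,0,0,3,2,4,4,1⟩),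
  (527, ⟨0,0,0,0,3,2,4,4,1⟩),
  (25603, ⟨0,0,1,0,5,0,2,5,1⟩),
  (9731, ⟨0,0,1,0,5,0,2,5,1⟩),
  (8711, ⟨0,0,0,1,5,0,4,3,1⟩),
  (24587, ⟨0,0,1,0,5,0,2,5,1⟩),
  (8715, ⟨0,0,1,0,5,0,2,5,1⟩),
  (21633, ⟨0,2,0,0,5,0,9,0,1⟩),
  (21509, ⟨0,0,0,1,5,0,5,2,1⟩),
  (5637, ⟨0,0,0,1,5,0,5,2,1⟩),
  (9733, ⟨0,0,0,1,5,0,4,3,1⟩),
  (17415, ⟨0,0,0,1,5,0,5,2,1⟩),
  (1543, ⟨0,0,0,1,5,0,5,2,1⟩),
  (53253, ⟨0,0,0,1,5,0,5,2,1⟩),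
  (38917, ⟨0,1,0,0,0,5,5,2,1⟩),
  (37381, ⟨0,0,0,1,5,0,5,2,1⟩),
  (36885, ⟨0,1,0,0,0,5,5,2,1⟩),
  (6661, ⟨0,1,0,0,0,5,5,2,1⟩),
  (4621, ⟨0,1,0,0,0,5,5,2,1⟩),
  (36871, ⟨0,0,0,0,9,0,7,0,1⟩),
  (5127, ⟨0,0,0,0,9,0,7,0,1⟩),
  (4615, ⟨0,0,0,1,5,0,5,2,1⟩),
  (9223, ⟨0,0,0,0,9,0,0,7,1⟩),
  (32783, ⟨0,0,0,0,1,0,0,0,0⟩),
  (8207, ⟨0,0,0,0,9,0,0,7,1⟩),
  (1039, ⟨0,0,0,0,9,0,7,0,1⟩),
  (79, ⟨0,0,0,0,0,0,0,1,0⟩),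
  (10753, ⟨0,1,0,0,0,5,4,3,1⟩),
  (10312, ⟨0,0,1,0,0,5,0,9,1⟩),
  (10249, ⟨0,1,0,0,0,5,4,3,1⟩),
  (10756, ⟨1,0,0,0,0,5,2,5,1⟩),
  (8716, ⟨1,0,0,0,0,5,2,5,1⟩),
  (25602, ⟨0,0,1,0,5,0,2,5,1⟩),
  (9730, ⟨0,0,1,0,5,0,2,5,1⟩),
  (10754, ⟨1,0,0,0,0,5,2,5,1⟩),
  (8710, ⟨0,0,0,1,5,0,4,3,1⟩),
  (24586, ⟨0,0,1,0,5,0,2,5,1⟩),
  (10250, ⟨1,0,0,0,0,5,2,5,1⟩),
  (8714, ⟨0,0,1,0,5,0,2,5,1⟩),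
  (8218, ⟨1,0,0,0,0,5,2,5,1⟩),
  (2563, ⟨0,0,0,0,2,3,4,4,1⟩),
  (6276, ⟨0,0,0,2,0,5,9,0,1⟩),
  (6149, ⟨0,1,0,0,0,5,5,2,1⟩),
  (2565, ⟨0,1,0,0,0,5,5,2,1⟩),
  (10252, ⟨1,0,0,0,0,5,2,5,1⟩),
  (2061, ⟨0,1,0,0,0,5,5,2,1⟩),
  (1548, ⟨0,0,0,0,3,2,4,4,1⟩),
  (525, ⟨0,1,0,0,0,5,5,2,1⟩),
  (8709, ⟨0,0,0,1,5,0,4,3,1⟩),
  (9219, ⟨0,0,0,0,9,0,0,7,1⟩),
  (8707, ⟨0,0,1,0,5,0,2,5,1⟩),
  (8203, ⟨0,0,0,0,9,0,0,7,1⟩),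
  (21505, ⟨0,0,1,0,5,0,3,4,1⟩),
  (5633, ⟨0,0,1,0,5,0,3,4,1⟩),
  (9729, ⟨0,0,1,0,5,0,2,5,1⟩),
  (1541, ⟨0,0,0,1,5,0,5,2,1⟩),
  (17411, ⟨0,0,1,0,5,0,3,4,1⟩),
  (1539, ⟨0,0,1,0,5,0,3,4,1⟩),
  (36869, ⟨0,0,0,0,9,0,7,0,1⟩),
  (5125, ⟨0,0,0,0,9,0,7,0,1⟩),
  (4613, ⟨0,0,0,1,5,0,5,2,1⟩),
  (4103, ⟨0,0,0,0,0,0,1,0,0⟩),
  (1031, ⟨0,0,0,0,9,0,7,0,1⟩),
  (519, ⟨0,0,0,1,5,0,5,2,1⟩),
  (15, ⟨0,0,0,0,0,0,1,0,0⟩),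
  (10752, ⟨1,0,0,0,0,5,2,5,1⟩),
  (10248, ⟨1,0,0,0,0,5,2,5,1⟩),
  (8708, ⟨0,0,0,1,5,0,4,3,1⟩),
  (9218, ⟨0,0,0,0,9,0,0,7,1⟩),
  (8706, ⟨0,0,1,0,5,0,2,5,1⟩),
  (8202, ⟨0,0,0,0,9,0,0,7,1⟩),
  (2561, ⟨0,1,0,0,0,5,5,2,1⟩),
  (6148, ⟨1,0,0,0,0,5,3,4,1⟩),
  (2564, ⟨1,0,0,0,0,5,3,4,1⟩),
  (2060, ⟨1,0,0,0,0,5,3,4,1⟩),
  (524, ⟨1,0,0,0,0,5,3,4,1⟩),
  (10241, ⟨0,0,0,1,0,0,0,0,0⟩),
  (8705, ⟨0,0,1,0,5,0,2,5,1⟩),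
  (8195, ⟨0,0,0,1,0,0,0,0,0⟩),
  (5121, ⟨0,0,0,0,9,0,7,0,1⟩),
  (1537, ⟨0,0,1,0,5,0,3,4,1⟩),
  (1027, ⟨0,0,0,0,9,0,7,0,1⟩),
  (517, ⟨0,0,0,1,5,0,5,2,1⟩),
  (4101, ⟨0,0,0,0,0,0,1,0,0⟩),
  (2053, ⟨0,0,0,1,0,0,0,0,0⟩),
  (7, ⟨0,0,0,1,0,0,0,0,0⟩),
  (10240, ⟨0,0,0,1,0,0,0,0,0⟩),
  (8704, ⟨0,0,1,0,5,0,2,5,1⟩),
  (8194, ⟨0,0,0,1,0,0,0,0,0⟩),
  (2560, ⟨1,0,0,0,0,5,3,4,1⟩),
  (2052, ⟨0,0,0,1,0,0,0,0,0⟩),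
  (516, ⟨0,0,0,1,5,0,5,2,1⟩),
  (8193, ⟨0,1,0,0,0,0,0,0,0⟩),
  (1025, ⟨0,1,0,0,0,0,0,0,0⟩),
  (513, ⟨0,0,1,0,5,0,3,4,1⟩),
  (5, ⟨0,1,0,0,0,0,0,0,0⟩),
  (8192, ⟨0,1,0,0,0,0,0,0,0⟩),
  (2048, ⟨0,0,1,0,0,0,0,0,0⟩),
  (512, ⟨0,0,1,0,5,0,3,4,1⟩),
  (1, ⟨0,0,1,0,0,0,0,0,0⟩),
  (0, ⟨1,0,0,0,0,0,0,0,0⟩)]

theorem rules_ok : rules.all ruleOK = true := by decide +kernel

theorem run_ok : run rules [511] nodes = true := by decide +kernel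

/-- Every lattice point of the cone has a positive multiple that is a sum of lattice points of
level at most one. -/
theorem good_of_cone (y : P9) (hy : Cone y) : Good y :=
  run_sound rules rules_ok nodes [511] (by
    intro D hD
    rw [List.mem_singleton.1 hD]
    exact claim_base) run_ok y hy

end Pool.Agent.Lib.MP_30655b_al
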